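import Mathlib

/-!
# A forcing with sequences of blocks

Conditions, picks, histories, the two orders.
-/

set_option autoImplicit false

namespace Pool.Agent.N646.MC

open Set

variable {Λ : Type}

/-- `e` chooses from each large set `B α` a pair of elements `a < b`. -/
def Pick (B : Λ → Finset ℕ) (e : Λ → Finset (ℕ × ℕ)) : Prop :=
  (∀ α, 2 ≤ (B α).card → ∃ a ∈ B α, ∃ b ∈ B α, a < b ∧ e α = {(a, b)}) ∧
    ∀ α, (B α).card < 2 → e α = ∅

/-- The finite unions of picks from different blocks with labels smaller than `n`. -/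
def Hist (X : Set ℕ) (C : ℕ → Λ → Finset ℕ) : ℕ → Set (Λ → Finset (ℕ × ℕ))
  | 0 => {⊥}
  | n + 1 => {u | u ∈ Hist X C n ∨ n ∈ X ∧ ∃ t ∈ Hist X C n, ∃ e, Pick (C n) e ∧ u = t ⊔ e}

/-- The conditions. -/
structure Cond (Λ : Type) where
  /-- the domain -/
  D : Set Λ
  /-- the stem -/
  s : Λ → Finset (ℕ × ℕ)
  /-- the labels of the blocks -/
  X : Set ℕ
  /-- the blocks -/
  C : ℕ → Λ → Finset ℕ
  cD : D.Countable
  sD : ∀ α, α ∉ D → s α = ∅
  CD : ∀ x α, α ∉ D → C x α = ∅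
  inf : X.Infinite
  fin : ∀ x, {α | 2 ≤ (C x α).card}.Finite
  big : ∀ α ∈ D, ∀ N, ∃ x0, ∀ x ∈ X, x0 ≤ x → N ≤ (C x α).card

open Classical in
/-- Restriction to `D`. -/
noncomputable def res (D : Set Λ) (t : Λ → Finset (ℕ × ℕ)) : Λ → Finset (ℕ × ℕ) :=
  fun α => if α ∈ D then t α else ∅

theorem res_of_mem {D : Set Λ} {t : Λ → Finset (ℕ × ℕ)} {α : Λ} (h : α ∈ D) :
    res D t α = t α := if_pos h

theorem res_of_not {D : Set Λ} {t : Λ → Finset (ℕ × ℕ)} {α : Λ} (h : α ∉ D) :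
    res D t α = ∅ := if_neg h

theorem res_sup (D : Set Λ) (t u : Λ → Finset (ℕ × ℕ)) : res D (t ⊔ u) = res D t ⊔ res D u := by
  funext α
  by_cases h : α ∈ D
  · simp only [res_of_mem h, Pi.sup_apply]
  · simp only [res_of_not h, Pi.sup_apply, Finset.sup_eq_union, Finset.union_empty]

theorem res_bot (D : Set Λ) : res D (⊥ : Λ → Finset (ℕ × ℕ)) = ⊥ := by
  funext α
  by_cases h : α ∈ D
  · rw [res_of_mem h]
  · rw [res_of_not h]; rfl

theorem res_res (D : Set Λ) (t : Λ → Finset (ℕ × ℕ)) : res D (res D t) = res D t := by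
  funext α
  by_cases h : α ∈ D
  · rw [res_of_mem h]
  · rw [res_of_not h, res_of_not h]

/-- The condition obtained by adding `t` to the stem and keeping the blocks from `n` on. -/
noncomputable def Cond.next (p : Cond Λ) (n : ℕ) (t : Λ → Finset (ℕ × ℕ)) : Cond Λ where
  D := p.D
  s := p.s ⊔ res p.D t
  X := {x | x ∈ p.X ∧ n ≤ x}
  C := p.C
  cD := p.cD
  sD := fun α h => by
    rw [Pi.sup_apply, p.sD α h, res_of_not h]
    rfl
  CD := p.CD
  inf := by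
    intro hf
    refine p.inf ((hf.union (Set.finite_lt_nat n)).subset ?_)
    intro x hx
    by_cases h : n ≤ x
    · exact Or.inl ⟨hx, h⟩
    · exact Or.inr (not_le.1 h)
  fin := p.fin
  big := fun α h N => by
    obtain ⟨x0, hx0⟩ := p.big α h N
    exact ⟨x0, fun x hx h1 => hx0 x hx.1 h1⟩

/-- `q` is a pure extension of `p`. -/
structure Pure (q p : Cond Λ) : Prop where
  D : p.D ⊆ q.D
  s : ∀ α ∈ p.D, q.s α = p.s α
  X : q.X ⊆ p.X
  C : ∀ x ∈ q.X, ∀ α ∈ p.D, q.C x α ⊆ p.C x α ∧ (2 ≤ (p.C x α).card → 2 ≤ (q.C x α).card)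

theorem Pure.refl (p : Cond Λ) : Pure p p :=
  ⟨Subset.rfl, fun _ _ => rfl, Subset.rfl, fun _ _ _ _ => ⟨Subset.rfl, id⟩⟩

theorem Pure.trans {r q p : Cond Λ} (h : Pure r q) (h' : Pure q p) : Pure r p :=
  ⟨h'.D.trans h.D, fun α hα => (h.s α (h'.D hα)).trans (h'.s α hα), h.X.trans h'.X,
    fun x hx α hα => ⟨(h.C x hx α (h'.D hα)).1.trans (h'.C x (h.X hx) α hα).1,
      fun h2 => (h.C x hx α (h'.D hα)).2 ((h'.C x (h.X hx) α hα).2 h2)⟩⟩

/-! ### Picks and histories -/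

theorem exists_pick (B : Λ → Finset ℕ) : ∃ e, Pick B e := by
  classical
  have h : ∀ α, ∃ f : Finset (ℕ × ℕ),
      (2 ≤ (B α).card → ∃ a ∈ B α, ∃ b ∈ B α, a < b ∧ f = {(a, b)}) ∧
        ((B α).card < 2 → f = ∅) := by
    intro α
    by_cases h2 : 2 ≤ (B α).card
    · obtain ⟨a, ha, b, hb, hab⟩ := Finset.one_lt_card.1 h2
      rcases lt_or_gt_of_ne hab with h3 | h3
      · exact ⟨{(a, b)}, fun _ => ⟨a, ha, b, hb, h3, rfl⟩, fun h4 => absurd h2 (not_le.2 h4)⟩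
      · exact ⟨{(b, a)}, fun _ => ⟨b, hb, a, ha, h3, rfl⟩, fun h4 => absurd h2 (not_le.2 h4)⟩
    · exact ⟨∅, fun h3 => absurd h3 h2, fun _ => rfl⟩
  choose e he using h
  exact ⟨e, fun α => (he α).1, fun α => (he α).2⟩

theorem hist_mono {X : Set ℕ} {C : ℕ → Λ → Finset ℕ} {m n : ℕ} (h : m ≤ n) :
    Hist X C m ⊆ Hist X C n := by
  induction h with
  | refl => exact Subset.rfl
  | step _ ih => exact fun u hu => Or.inl (ih hu)

theorem bot_mem_hist (X : Set ℕ) (C : ℕ → Λ → Finset ℕ) (n : ℕ) : ⊥ ∈ Hist X C n :=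
  hist_mono (Nat.zero_le n) rfl

theorem hist_step {X : Set ℕ} {C : ℕ → Λ → Finset ℕ} {n : ℕ} (hn : n ∈ X)
    {t e : Λ → Finset (ℕ × ℕ)} (ht : t ∈ Hist X C n) (he : Pick (C n) e) :
    t ⊔ e ∈ Hist X C (n + 1) := Or.inr ⟨hn, t, ht, e, he, rfl⟩

theorem hist_congr {X Y : Set ℕ} {C C' : ℕ → Λ → Finset ℕ} {n : ℕ}
    (h : ∀ x < n, (x ∈ X ↔ x ∈ Y)) (h' : ∀ x < n, x ∈ X → C x = C' x) :
    Hist X C n = Hist Y C' n := by
  induction n with
  | zero => rfl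
  | succ n ih =>
    have h1 := ih (fun x hx => h x (Nat.lt_succ_of_lt hx)) fun x hx => h' x (Nat.lt_succ_of_lt hx)
    ext u
    show (u ∈ Hist X C n ∨ n ∈ X ∧ ∃ t ∈ Hist X C n, ∃ e, Pick (C n) e ∧ u = t ⊔ e) ↔
      (u ∈ Hist Y C' n ∨ n ∈ Y ∧ ∃ t ∈ Hist Y C' n, ∃ e, Pick (C' n) e ∧ u = t ⊔ e)
    rw [h1]
    refine or_congr Iff.rfl ?_
    by_cases hn : n ∈ X
    · rw [h' n (Nat.lt_succ_self n) hn, h n (Nat.lt_succ_self n)]
    · have hn' : n ∉ Y := fun h2 => hn ((h n (Nat.lt_succ_self n)).2 h2)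
      simp [hn, hn']

/-- histories do not change where there are no labels -/
theorem hist_gap {X : Set ℕ} {C : ℕ → Λ → Finset ℕ} {m n : ℕ} (hmn : m ≤ n)
    (h : ∀ x ∈ X, m ≤ x → n ≤ x) : Hist X C n = Hist X C m := by
  induction n, hmn using Nat.le_induction with
  | base => rfl
  | succ n hmn ih =>
    have h1 : n ∉ X := fun hn => by
      have := h n hn hmn
      omega
    have h2 : Hist X C (n + 1) = Hist X C n := by
      ext u
      show (u ∈ Hist X C n ∨ n ∈ X ∧ _) ↔ _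
      simp [h1]
    rw [h2]
    exact ih fun x hx h3 => (Nat.le_succ n).trans (h x hx h3)

theorem hist_concat {X : Set ℕ} {C : ℕ → Λ → Finset ℕ} {n : ℕ} {t : Λ → Finset (ℕ × ℕ)}
    (ht : t ∈ Hist X C n) (m : ℕ) : ∀ u ∈ Hist {x | x ∈ X ∧ n ≤ x} C m,
      t ⊔ u ∈ Hist X C (max n m) := by
  induction m with
  | zero =>
    intro u hu
    have : u = ⊥ := hu
    rw [this, sup_bot_eq]
    exact hist_mono (le_max_left _ _) ht
  | succ m ih =>
    intro u hu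
    rcases hu with hu | ⟨hm, v, hv, e, he, rfl⟩
    · exact hist_mono (max_le_max_left n (Nat.le_succ m)) (ih u hu)
    · have h1 : n ≤ m := hm.2
      have h2 := ih v hv
      rw [max_eq_right h1] at h2
      rw [max_eq_right (h1.trans (Nat.le_succ m)), ← sup_assoc]
      exact hist_step hm.1 h2 he

theorem hist_supp {X D : Set _} {C : ℕ → Λ → Finset ℕ} (hC : ∀ x, ∀ α ∉ D, C x α = ∅) (n : ℕ) :
    ∀ t ∈ Hist X C n, ∀ α ∉ D, t α = ∅ := by
  induction n with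
  | zero =>
    intro t ht α _
    have : t = ⊥ := ht
    rw [this]
    rfl
  | succ n ih =>
    intro t ht α hα
    rcases ht with ht | ⟨hn, u, hu, e, he, rfl⟩
    · exact ih t ht α hα
    · rw [Pi.sup_apply, ih u hu α hα, he.2 α (by rw [hC n α hα]; simp)]
      rfl

theorem Cond.hist_supp (p : Cond Λ) {n : ℕ} {t : Λ → Finset (ℕ × ℕ)} (ht : t ∈ Hist p.X p.C n) :
    ∀ α ∉ p.D, t α = ∅ := MC.hist_supp (fun x α h => p.CD x α h) n t ht

theorem Cond.res_hist (p : Cond Λ) {n : ℕ} {t : Λ → Finset (ℕ × ℕ)} (ht : t ∈ Hist p.X p.C n) :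
    res p.D t = t := by
  funext α
  by_cases h : α ∈ p.D
  · rw [res_of_mem h]
  · rw [res_of_not h, p.hist_supp ht α h]

theorem Cond.ext' {p q : Cond Λ} (h1 : p.D = q.D) (h2 : p.s = q.s) (h3 : p.X = q.X)
    (h4 : p.C = q.C) : p = q := by
  cases p
  cases q
  simp only at h1 h2 h3 h4
  subst h1 h2 h3 h4
  rfl

theorem Cond.next_next (p : Cond Λ) (n m : ℕ) (t u : Λ → Finset (ℕ × ℕ)) :
    (p.next n t).next m u = p.next (max n m) (t ⊔ u) := by
  refine Cond.ext' rfl ?_ ?_ rfl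
  · show (p.s ⊔ res p.D t) ⊔ res p.D u = p.s ⊔ res p.D (t ⊔ u)
    rw [res_sup, sup_assoc]
  · ext x
    show ((x ∈ p.X ∧ n ≤ x) ∧ m ≤ x) ↔ (x ∈ p.X ∧ max n m ≤ x)
    rw [max_le_iff, and_assoc]

theorem pick_res {q p : Cond Λ} (h : Pure q p) {x : ℕ} (hx : x ∈ q.X) {e : Λ → Finset (ℕ × ℕ)}
    (he : Pick (q.C x) e) : Pick (p.C x) (res p.D e) := by
  constructor
  · intro α h2
    have hα : α ∈ p.D := by
      by_contra hcon
      rw [p.CD x α hcon] at h2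
      simp at h2
    obtain ⟨h3, h4⟩ := h.C x hx α hα
    obtain ⟨a, ha, b, hb, hab, h5⟩ := he.1 α (h4 h2)
    exact ⟨a, h3 ha, b, h3 hb, hab, by rw [res_of_mem hα, h5]⟩
  · intro α h2
    by_cases hα : α ∈ p.D
    · rw [res_of_mem hα]
      exact he.2 α (lt_of_le_of_lt (Finset.card_le_card (h.C x hx α hα).1) h2)
    · exact res_of_not hα

theorem hist_res {q p : Cond Λ} (h : Pure q p) (n : ℕ) : ∀ t ∈ Hist q.X q.C n,
    res p.D t ∈ Hist p.X p.C n := by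
  induction n with
  | zero =>
    intro t ht
    have : t = ⊥ := ht
    rw [this, res_bot]
    rfl
  | succ n ih =>
    intro t ht
    rcases ht with ht | ⟨hn, u, hu, e, he, rfl⟩
    · exact Or.inl (ih t ht)
    · rw [res_sup]
      exact hist_step (h.X hn) (ih u hu) (pick_res h hn he)

theorem Pure.next {q p : Cond Λ} (h : Pure q p) (n : ℕ) (t : Λ → Finset (ℕ × ℕ)) :
    Pure (q.next n t) (p.next n (res p.D t)) := by
  refine ⟨h.D, fun α hα => ?_, fun x hx => ⟨h.X hx.1, hx.2⟩, fun x hx α hα => h.C x hx.1 α hα⟩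
  have hα' : α ∈ p.D := hα
  show (q.s ⊔ res q.D t) α = (p.s ⊔ res p.D (res p.D t)) α
  rw [Pi.sup_apply, Pi.sup_apply, res_res, res_of_mem hα', res_of_mem (h.D hα'), h.s α hα']

theorem Pure.next' {q p : Cond Λ} (h : Pure q p) (n : ℕ) (t : Λ → Finset (ℕ × ℕ)) :
    Pure (q.next n t) (p.next n t) := by
  refine ⟨h.D, fun α hα => ?_, fun x hx => ⟨h.X hx.1, hx.2⟩, fun x hx α hα => h.C x hx.1 α hα⟩
  have hα' : α ∈ p.D := hα
  show (q.s ⊔ res q.D t) α = (p.s ⊔ res p.D t) α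
  rw [Pi.sup_apply, Pi.sup_apply, res_of_mem hα', res_of_mem (h.D hα'), h.s α hα']

/-- dropping labels -/
theorem pure_drop (p : Cond Λ) {n m : ℕ} (h : n ≤ m) (t : Λ → Finset (ℕ × ℕ)) :
    Pure (p.next m t) (p.next n t) :=
  ⟨Subset.rfl, fun _ _ => rfl, fun _ hx => ⟨hx.1, h.trans hx.2⟩, fun _ _ _ _ => ⟨Subset.rfl, id⟩⟩

theorem next_bot (p : Cond Λ) : p.next 0 ⊥ = p := by
  refine Cond.ext' rfl ?_ ?_ rfl
  · show p.s ⊔ res p.D ⊥ = p.s
    rw [res_bot, sup_bot_eq]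
  · ext x
    exact ⟨fun h => h.1, fun h => ⟨h, Nat.zero_le _⟩⟩

/-! ### The order -/

instance : LE (Cond Λ) := ⟨fun q p => ∃ n, ∃ t ∈ Hist p.X p.C n, Pure q (p.next n t)⟩

theorem le_def {q p : Cond Λ} : q ≤ p ↔ ∃ n, ∃ t ∈ Hist p.X p.C n, Pure q (p.next n t) := Iff.rfl

theorem Pure.le {q p : Cond Λ} (h : Pure q p) : q ≤ p :=
  ⟨0, ⊥, rfl, by rw [next_bot]; exact h⟩

theorem next_le (p : Cond Λ) {n : ℕ} {t : Λ → Finset (ℕ × ℕ)} (ht : t ∈ Hist p.X p.C n) :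
    p.next n t ≤ p := ⟨n, t, ht, Pure.refl _⟩

theorem cond_le_trans {r q p : Cond Λ} (h : r ≤ q) (h' : q ≤ p) : r ≤ p := by
  obtain ⟨n', t', ht', hr⟩ := h
  obtain ⟨n, t, ht, hq⟩ := h'
  have h1 := hist_res hq n' t' ht'
  refine ⟨max n n', t ⊔ res p.D t', hist_concat ht n' _ h1, hr.trans ?_⟩
  rw [← Cond.next_next]
  exact hq.next n' t'

instance : Preorder (Cond Λ) where
  le_refl p := (Pure.refl p).le
  le_trans _ _ _ h h' := cond_le_trans h h'

instance : Nonempty (Cond Λ) :=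
  ⟨{ D := ∅
     s := fun _ => ∅
     X := Set.univ
     C := fun _ _ => ∅
     cD := Set.countable_empty
     sD := fun _ _ => rfl
     CD := fun _ _ _ => rfl
     inf := Set.infinite_univ
     fin := fun _ => by simp
     big := fun α h => absurd h (Set.notMem_empty α) }⟩

/-! ### Decompositions of histories -/

theorem hist_split {X : Set ℕ} {C : ℕ → Λ → Finset ℕ} {n m : ℕ} (h : n ≤ m) :
    ∀ t ∈ Hist X C m, ∃ t1 ∈ Hist X C n, ∃ u ∈ Hist {x | x ∈ X ∧ n ≤ x} C m, t = t1 ⊔ u := by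
  induction m, h using Nat.le_induction with
  | base =>
    intro t ht
    exact ⟨t, ht, ⊥, bot_mem_hist _ _ _, by rw [sup_bot_eq]⟩
  | succ m hm ih =>
    intro t ht
    rcases ht with ht | ⟨hn, v, hv, e, he, rfl⟩
    · obtain ⟨t1, h1, u, hu, h2⟩ := ih t ht
      exact ⟨t1, h1, u, Or.inl hu, h2⟩
    · obtain ⟨t1, h1, u, hu, h2⟩ := ih v hv
      refine ⟨t1, h1, u ⊔ e, Or.inr ⟨⟨hn, hm⟩, u, hu, e, he, rfl⟩, ?_⟩
      rw [h2, sup_assoc]

/-- The first pick of a history. -/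
theorem hist_head {X : Set ℕ} {C : ℕ → Λ → Finset ℕ} (m : ℕ) :
    ∀ u ∈ Hist X C m, u = ⊥ ∨ ∃ y ∈ X, y < m ∧ ∃ e, Pick (C y) e ∧
      ∃ w ∈ Hist {x | x ∈ X ∧ y + 1 ≤ x} C m, u = e ⊔ w := by
  induction m with
  | zero =>
    intro u hu
    exact Or.inl hu
  | succ m ih =>
    intro u hu
    rcases hu with hu | ⟨hm, v, hv, e, he, rfl⟩
    · rcases ih u hu with h | ⟨y, hy, hym, e, he, w, hw, h⟩
      · exact Or.inl h
      · exact Or.inr ⟨y, hy, Nat.lt_succ_of_lt hym, e, he, w, Or.inl hw, h⟩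
    · right
      rcases ih v hv with h | ⟨y, hy, hym, e', he', w, hw, h⟩
      · refine ⟨m, hm, Nat.lt_succ_self m, e, he, ⊥, bot_mem_hist _ _ _, ?_⟩
        rw [h, bot_sup_eq, sup_bot_eq]
      · refine ⟨y, hy, Nat.lt_succ_of_lt hym, e', he', w ⊔ e,
          Or.inr ⟨⟨hm, hym⟩, w, hw, e, he, rfl⟩, ?_⟩
        rw [h, sup_assoc]

/-- The pick of a history to which a given pair belongs. -/
theorem hist_locate {X : Set ℕ} {C : ℕ → Λ → Finset ℕ} {β : Λ} {π : ℕ × ℕ} (m : ℕ) :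
    ∀ u ∈ Hist X C m, π ∈ u β → ∃ y ∈ X, y < m ∧ ∃ t ∈ Hist X C y, ∃ e, Pick (C y) e ∧
      π ∈ e β ∧ ∃ w ∈ Hist {x | x ∈ X ∧ y + 1 ≤ x} C m, u = t ⊔ e ⊔ w := by
  induction m with
  | zero =>
    intro u hu hπ
    have : u = ⊥ := hu
    rw [this] at hπ
    exact absurd hπ (Finset.notMem_empty π)
  | succ m ih =>
    intro u hu hπ
    rcases hu with hu | ⟨hm, v, hv, e, he, rfl⟩
    · obtain ⟨y, hy, hym, t, ht, e, he, hπe, w, hw, h⟩ := ih u hu hπ
      exact ⟨y, hy, Nat.lt_succ_of_lt hym, t, ht, e, he, hπe, w, Or.inl hw, h⟩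
    · by_cases h1 : π ∈ e β
      · exact ⟨m, hm, Nat.lt_succ_self m, v, hv, e, he, h1, ⊥, bot_mem_hist _ _ _,
          (sup_bot_eq _).symm⟩
      · have h2 : π ∈ v β := by
          rcases Finset.mem_union.1 (show π ∈ v β ∪ e β from hπ) with h3 | h3
          · exact h3
          · exact absurd h3 h1
        obtain ⟨y, hy, hym, t, ht, e', he', hπe, w, hw, h⟩ := ih v hv h2
        refine ⟨y, hy, Nat.lt_succ_of_lt hym, t, ht, e', he', hπe, w ⊔ e,
          Or.inr ⟨⟨hm, hym⟩, w, hw, e, he, rfl⟩, ?_⟩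
        rw [h, sup_assoc]

/-- Every extension of `p` can be extended so that it lies below some `p.next n t`. -/
theorem exists_le_next {p r : Cond Λ} (h : r ≤ p) (n : ℕ) :
    ∃ r' ≤ r, ∃ t ∈ Hist p.X p.C n, r' ≤ p.next n t := by
  obtain ⟨m, u, hu, hr⟩ := h
  rcases le_total n m with hnm | hnm
  · obtain ⟨t, ht, w, hw, h1⟩ := hist_split hnm u hu
    refine ⟨r, le_rfl, t, ht, m, w, hw, ?_⟩
    rw [Cond.next_next, max_eq_right hnm, ← h1]
    exact hr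
  · refine ⟨r.next n ⊥, (next_le r (bot_mem_hist _ _ _)), u, hist_mono hnm hu, Pure.le ?_⟩
    have h1 := hr.next' n ⊥
    rw [Cond.next_next, max_eq_right hnm, sup_bot_eq] at h1
    exact h1

end Pool.Agent.N646.MC
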