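import Mathlib
import Pool.Agent.R593.Rnd.Defs

/-!
# The sentence about homogeneous pairs and eventually different functions, and its forcing version
-/

set_option autoImplicit false

namespace Pool.Agent.N646.MC

open Pool.Agent.TH773.PSet Pool.Agent.R593.Rnd

/-- For every family of reals `x k` indexed by `K` there is a set `E` of pairs `a < b`, with
arbitrarily large `a`, such that each `x k` has the same value at `a` and `b` for all pairs
`(a, b)` of `E` with large enough `a`. -/
def Cap (K : Type) : Prop :=
  ∀ x : K → ℕ → Bool, ∃ E : ℕ → ℕ → Prop, (∀ m, ∃ a b, m ≤ a ∧ a < b ∧ E a b) ∧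
    ∀ k, ∃ m, ∀ a b, m ≤ a → a < b → E a b → x k a = x k b

/-- There are functions `y k`, `k ∈ K`, with `y k j ≤ j` such that every function is eventually
different from some `y k`. -/
def Esc (K : Type) : Prop :=
  ∃ y : K → ℕ → ℕ, (∀ k j, y k j ≤ j) ∧ ∀ h : ℕ → ℕ, ∃ k, ∃ m, ∀ j, m ≤ j → h j ≠ y k j

/-- The combinatorial sentence. -/
def Phi (K : Type) : Prop := Cap K ∧ Esc K

section Forcing

variable {P : Type} [Preorder P]

/-- Forcing version of: the set `E` has pairs `a < b` with arbitrarily large `a`. -/
def LargeN (E : ℕ → ℕ → Set P) : Set P :=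
  fall fun m : ℕ => fex fun a => fex fun b => fex fun _ : m ≤ a ∧ a < b => meets (E a b)

/-- Forcing version of `x a = x b`. -/
def EqN (x : ℕ → Bool → Set P) (a b : ℕ) : Set P :=
  fall fun v => fimp (meets (x a v)) (meets (x b v))

/-- Forcing version of: `x a = x b` for all pairs `a < b` of `E` with large enough `a`. -/
def AgreeN (E : ℕ → ℕ → Set P) (x : ℕ → Bool → Set P) : Set P :=
  fex fun m : ℕ => fall fun a => fall fun b => fall fun _ : m ≤ a ∧ a < b =>
    fimp (meets (E a b)) (EqN x a b)

/-- Forcing version of: `y j ≤ j` for all `j`. -/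
def BelowN (y : ℕ → ℕ → Set P) : Set P :=
  fall fun j => fall fun v => fall fun _ : j < v => fnot (meets (y j v))

/-- Forcing version of: `h j ≠ y j` for all large enough `j`. -/
def DiffN (h y : ℕ → ℕ → Set P) : Set P :=
  fex fun m : ℕ => fall fun j => fall fun _ : m ≤ j => fall fun v =>
    fnot (fand (meets (h j v)) (meets (y j v)))

variable (P) in
/-- Forcing version of `Cap`. -/
def CapN (K : Type) : Set P :=
  fall fun x : K → ℕ → Bool → Set P => fimp (fall fun k => IsFun (x k))
    (fex fun E : ℕ → ℕ → Set P => fand (LargeN E) (fall fun k => AgreeN E (x k)))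

variable (P) in
/-- Forcing version of `Esc`. -/
def EscN (K : Type) : Set P :=
  fex fun y : K → ℕ → ℕ → Set P => fand (fall fun k => fand (IsFun (y k)) (BelowN (y k)))
    (fall fun h : ℕ → ℕ → Set P => fimp (IsFun h) (fex fun k => DiffN h (y k)))

variable (P) in
/-- The translation of `Phi` into the forcing language. -/
def PhiHolds (K : Type) : Set P := fand (CapN P K) (EscN P K)

end Forcing

end Pool.Agent.N646.MC
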