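import Pool.Agent.N646.MC.Laver
import Pool.Agent.N646.MC.Sent
import Pool.Agent.R593.Rnd.Polar

/-!
# Capturing a real by the generic pairs
-/

set_option autoImplicit false

namespace Pool.Agent.N646.MC

open Set Pool.Agent.TH773.PSet Pool.Agent.R593.Rnd

variable {Λ : Type}

/-! ### Union of two conditions -/

open Classical in
/-- The union of two conditions. -/
noncomputable def union (p q : Cond Λ) (hX : p.X = q.X) : Cond Λ where
  D := p.D ∪ q.D
  s := fun α => if α ∈ p.D then p.s α else q.s α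
  X := p.X
  C := fun x α => if α ∈ p.D then p.C x α else q.C x α
  cD := p.cD.union q.cD
  sD := fun α h => by
    rw [if_neg fun h1 => h (Or.inl h1)]
    exact q.sD α fun h1 => h (Or.inr h1)
  CD := fun x α h => by
    rw [if_neg fun h1 => h (Or.inl h1)]
    exact q.CD x α fun h1 => h (Or.inr h1)
  inf := p.inf
  fin := fun x => ((p.fin x).union (q.fin x)).subset fun α hα => by
    by_cases h : α ∈ p.D
    · left
      have h1 : 2 ≤ (if α ∈ p.D then p.C x α else q.C x α).card := hα
      rwa [if_pos h] at h1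
    · right
      have h1 : 2 ≤ (if α ∈ p.D then p.C x α else q.C x α).card := hα
      rwa [if_neg h] at h1
  big := fun α hα N => by
    by_cases h : α ∈ p.D
    · obtain ⟨x0, hx0⟩ := p.big α h N
      refine ⟨x0, fun x hx h1 => ?_⟩
      rw [if_pos h]
      exact hx0 x hx h1
    · have h2 : α ∈ q.D := hα.resolve_left h
      obtain ⟨x0, hx0⟩ := q.big α h2 N
      refine ⟨x0, fun x hx h1 => ?_⟩
      rw [if_neg h]
      exact hx0 x (hX ▸ hx) h1

theorem union_pure_left (p q : Cond Λ) (hX : p.X = q.X) : Pure (union p q hX) p := by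
  classical
  refine ⟨Set.subset_union_left, fun α hα => if_pos hα, Subset.rfl, fun x _ α hα => ?_⟩
  have h1 : (union p q hX).C x α = p.C x α := if_pos hα
  rw [h1]
  exact ⟨Subset.rfl, id⟩

theorem union_pure_right (p q : Cond Λ) (hX : p.X = q.X)
    (h : ∀ α ∈ p.D, α ∈ q.D → p.s α = q.s α ∧ ∀ x, p.C x α = q.C x α) :
    Pure (union p q hX) q := by
  classical
  refine ⟨Set.subset_union_right, fun α hα => ?_, hX.subset, fun x _ α hα => ?_⟩
  · by_cases h1 : α ∈ p.D
    · have h2 : (union p q hX).s α = p.s α := if_pos h1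
      rw [h2]
      exact (h α h1 hα).1
    · exact if_neg h1
  · have h3 : (union p q hX).C x α = q.C x α := by
      by_cases h1 : α ∈ p.D
      · have h2 : (union p q hX).C x α = p.C x α := if_pos h1
        rw [h2]
        exact (h α h1 hα).2 x
      · exact if_neg h1
    rw [h3]
    exact ⟨Subset.rfl, id⟩

/-- A new index can be added to the domain. -/
theorem exists_add (p : Cond Λ) (β : Λ) : ∃ q, Pure q p ∧ β ∈ q.D := by
  classical
  by_cases hβ : β ∈ p.D
  · exact ⟨p, Pure.refl p, hβ⟩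
  · let q : Cond Λ :=
      { D := insert β p.D
        s := p.s
        X := p.X
        C := fun x α => if α = β then Finset.range x else p.C x α
        cD := p.cD.insert β
        sD := fun α h => p.sD α fun h1 => h (Or.inr h1)
        CD := fun x α h => by
          rw [if_neg fun h1 => h (Or.inl h1)]
          exact p.CD x α fun h1 => h (Or.inr h1)
        inf := p.inf
        fin := fun x => ((p.fin x).union (Set.finite_singleton β)).subset fun α hα => by
          by_cases h : α = β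
          · exact Or.inr h
          · left
            have h1 : 2 ≤ (if α = β then Finset.range x else p.C x α).card := hα
            rwa [if_neg h] at h1
        big := fun α hα N => by
          by_cases h : α = β
          · refine ⟨N, fun x _ h1 => ?_⟩
            rw [if_pos h, Finset.card_range]
            exact h1
          · obtain ⟨x0, hx0⟩ := p.big α (hα.resolve_left h) N
            refine ⟨x0, fun x hx h1 => ?_⟩
            rw [if_neg h]
            exact hx0 x hx h1 }
    refine ⟨q, ⟨fun α hα => Or.inr hα, fun _ _ => rfl, Subset.rfl, fun x _ α hα => ?_⟩, Or.inl rfl⟩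
    have hne : α ≠ β := fun h => hβ (h ▸ hα)
    have h1 : q.C x α = p.C x α := if_neg hne
    rw [h1]
    exact ⟨Subset.rfl, id⟩

/-! ### Continuous reading -/

section

variable {κ : ℕ → Type} {O : ∀ j, κ j → Set (Cond Λ)}

theorem exists_decide_lt [∀ j, Finite (κ j)] (hO : ∀ j v, Reg (O j v)) {p : Cond Λ}
    (hd : ∀ j, ∀ q ≤ p, ∃ r ≤ q, ∃ v, r ∈ O j v) (n J : ℕ) (r : Cond Λ) (hr : r ≤ p) :
    ∃ r', PureN n r' r ∧ ∀ t ∈ Hist r.X r.C n, ∀ j < J, ∃ v, r'.next n t ∈ O j v := by
  induction J with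
  | zero => exact ⟨r, PureN.refl _ _, fun t _ j hj => absurd hj (Nat.not_lt_zero j)⟩
  | succ J ih =>
    obtain ⟨r1, h1, h2⟩ := ih
    obtain ⟨r2, h3, h4⟩ := pure_decide_all (hO J) (p := r1) n
      fun q hq => hd J q (hq.trans (h1.toPure.le.trans hr))
    refine ⟨r2, h3.trans h1, fun t ht j hj => ?_⟩
    rcases Nat.lt_succ_iff_lt_or_eq.1 hj with hj | rfl
    · obtain ⟨v, hv⟩ := h2 t ht j hj
      exact ⟨v, (hO j v).1 _ hv _ (h3.toPure.next' n t).le⟩
    · exact h4 t (by rw [h1.hist_eq le_rfl]; exact ht)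

/-- Continuous reading of names. -/
theorem exists_read [∀ j, Finite (κ j)] (hO : ∀ j v, Reg (O j v)) (p : Cond Λ)
    (hd : ∀ j, ∀ q ≤ p, ∃ r ≤ q, ∃ v, r ∈ O j v) :
    ∃ q, Pure q p ∧ ∀ j, ∃ n, ∀ t ∈ Hist q.X q.C n, ∃ v, q.next n t ∈ O j v := by
  obtain ⟨q, n, x, hq, hn0, h1, h2, h3, h4, h5⟩ := fusion (fun r => r ≤ p)
    (fun r r' hr hr' => hr'.le.trans hr)
    (fun r n x => ∀ t ∈ Hist r.X r.C n, ∀ j < n, ∃ v, r.next n t ∈ O j v)
    (fun r r' n x hnx hr hr' t ht j hj => by
      rw [hr'.hist_eq (hnx.trans (Nat.le_succ x))] at ht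
      obtain ⟨v, hv⟩ := hr t ht j hj
      exact ⟨v, (hO j v).1 _ hv _ (hr'.toPure.next' n t).le⟩)
    (fun r n E m hr => by
      obtain ⟨r1, h1, h2⟩ := exists_decide_lt hO hd n n r hr
      obtain ⟨r2, x, h3, _, _, h5, h6, h7, h8⟩ := exists_advance r1 n E m
      refine ⟨r2, x, h3.trans h1, h5, h6, h7, fun α hα hαD => h8 α hα (h1.D hαD), ?_⟩
      intro t ht j hj
      rw [(h3.trans h1).hist_eq le_rfl] at ht
      obtain ⟨v, hv⟩ := h2 t ht j hj
      exact ⟨v, (hO j v).1 _ hv _ (h3.toPure.next' n t).le⟩)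
    p le_rfl 0
  have hn : StrictMono n := strictMono_nat_of_lt_succ fun i => by
    rw [h2]
    exact Nat.lt_succ_of_le (h1 i)
  refine ⟨q, hq.toPure, fun j => ⟨n (j + 1), fun t ht => h5 (j + 1) t ht j ?_⟩⟩
  exact lt_of_lt_of_le (Nat.lt_succ_self j) (hn.id_le _)

end

/-! ### The generic set of pairs -/

/-- The name of the set of the pairs picked at `β`. -/
def gen (β : Λ) (a b : ℕ) : Set (Cond Λ) := {r | (a, b) ∈ r.s β}

theorem stem_mono {z w : Cond Λ} (h : z ≤ w) {β : Λ} {π : ℕ × ℕ} (hπ : π ∈ w.s β) :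
    π ∈ z.s β := by
  have hβ : β ∈ w.D := by
    by_contra hcon
    rw [w.sD β hcon] at hπ
    simp at hπ
  obtain ⟨n, t, _, hz⟩ := h
  rw [hz.s β hβ]
  exact Finset.mem_union_left _ hπ

theorem exists_pick_pair {B : Λ → Finset ℕ} {β : Λ} {a b : ℕ} (ha : a ∈ B β) (hb : b ∈ B β)
    (hab : a < b) : ∃ e, Pick B e ∧ e β = {(a, b)} := by
  classical
  obtain ⟨e0, he0⟩ := exists_pick B
  refine ⟨Function.update e0 β {(a, b)}, ⟨fun α hα => ?_, fun α hα => ?_⟩,
    Function.update_self _ _ _⟩
  · by_cases h : α = β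
    · subst h
      exact ⟨a, ha, b, hb, hab, Function.update_self _ _ _⟩
    · rw [Function.update_of_ne h]
      exact he0.1 α hα
  · have h : α ≠ β := by
      rintro rfl
      exact absurd (Finset.one_lt_card.2 ⟨a, ha, b, hb, hab.ne⟩) (by omega)
    rw [Function.update_of_ne h]
    exact he0.2 α hα

theorem exists_two_ge {S : Finset ℕ} {m : ℕ} (h : m + 2 ≤ S.card) :
    ∃ a ∈ S, ∃ b ∈ S, m ≤ a ∧ a < b := by
  classical
  have h1 : (S.filter (· < m)).card ≤ m := by
    have : S.filter (· < m) ⊆ Finset.range m := fun x hx =>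
      Finset.mem_range.2 (Finset.mem_filter.1 hx).2
    simpa using Finset.card_le_card this
  have h2 : 1 < (S.filter (fun x => ¬ x < m)).card := by
    have := Finset.card_filter_add_card_filter_not (s := S) (· < m)
    omega
  obtain ⟨a, ha, b, hb, hab⟩ := Finset.one_lt_card.1 h2
  rw [Finset.mem_filter] at ha hb
  rcases lt_or_gt_of_ne hab with h3 | h3
  · exact ⟨a, ha.1, b, hb.1, not_lt.1 ha.2, h3⟩
  · exact ⟨b, hb.1, a, ha.1, not_lt.1 hb.2, h3⟩

theorem large_gen {β : Λ} {p : Cond Λ} (hβ : β ∈ p.D) : p ∈ LargeN (gen β) := by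
  intro m
  rw [mem_fex]
  intro z hz
  have hβz : β ∈ z.D := by
    obtain ⟨n, t, _, h⟩ := hz
    exact h.D hβ
  obtain ⟨x0, hx0⟩ := z.big β hβz (m + 2)
  obtain ⟨y, hy, hy1⟩ := z.inf.exists_gt x0
  obtain ⟨a, ha, b, hb, hma, hab⟩ := exists_two_ge (hx0 y hy hy1.le)
  obtain ⟨e, he, heβ⟩ := exists_pick_pair ha hb hab
  have hmem : z.next (y + 1) (⊥ ⊔ e) ∈ gen β a b := by
    show (a, b) ∈ z.s β ∪ res z.D (⊥ ⊔ e) β
    rw [res_of_mem hβz, bot_sup_eq, heβ]
    simp
  refine ⟨z.next (y + 1) (⊥ ⊔ e), next_le z (hist_step hy (bot_mem_hist _ _ _) he), a,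
    mem_fex_of b fun w hw => mem_fex_of ⟨hma, hab⟩ fun w' hw' => ?_⟩
  intro w'' hw''
  exact ⟨w'', le_rfl, _, hmem, hw''.trans (hw'.trans hw)⟩

theorem exists_drop (r : Cond Λ) (x N : ℕ) :
    ∃ r' : Cond Λ, PureN (x + 1) r' r ∧ r'.D = r.D ∧ r'.C = r.C ∧ ∀ y ∈ r'.X, x < y → N ≤ y := by
  have hinf : {y | y ∈ r.X ∧ (y < x + 1 ∨ N ≤ y)}.Infinite := by
    intro hfin
    refine r.inf ((hfin.union (Set.finite_lt_nat N)).subset ?_)
    intro y hy
    by_cases h : N ≤ y
    · exact Or.inl ⟨hy, Or.inr h⟩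
    · exact Or.inr (not_le.1 h)
  refine ⟨r.sub {y | y ∈ r.X ∧ (y < x + 1 ∨ N ≤ y)} (fun y hy => hy.1) hinf, ?_, rfl, rfl, ?_⟩
  · refine { D := ?_, s := ?_, X := ?_, C := ?_, keepX := ?_, keepC := ?_ }
    · exact Subset.rfl
    · exact fun _ _ => rfl
    · exact fun y hy => hy.1
    · exact fun _ _ _ _ => ⟨Subset.rfl, id⟩
    · exact fun y hy hy' => ⟨hy', Or.inl hy⟩
    · exact fun _ _ _ => rfl
  · rintro y ⟨_, h2 | h2⟩ h3
    · omega
    · exact h2

theorem exists_three {S : Finset ℕ} (h : 3 ≤ S.card) : ∃ a ∈ S, ∃ b ∈ S, ∃ c ∈ S, a < b ∧ b < c := by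
  have hS := S.card_pos.1 (by omega)
  obtain ⟨T, hT, hTc⟩ := Finset.exists_subset_card_eq h
  let f := T.orderEmbOfFin hTc
  exact ⟨f 0, hT (T.orderEmbOfFin_mem hTc 0), f 1, hT (T.orderEmbOfFin_mem hTc 1), f 2,
    hT (T.orderEmbOfFin_mem hTc 2), f.strictMono (by decide), f.strictMono (by decide)⟩

theorem reg_eqN (x : ℕ → Bool → Set (Cond Λ)) (a b : ℕ) : Reg (EqN x a b) :=
  reg_fall fun _ => reg_fimp (reg_meets _).1

theorem eqN_of {x : ℕ → Bool → Set (Cond Λ)} {r : Cond Λ} (hx : r ∈ IsFun x) {a b : ℕ} {v : Bool}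
    (ha : r ∈ meets (x a v)) (hb : r ∈ meets (x b v)) : r ∈ EqN x a b := by
  intro w
  rw [mem_fimp_reg (reg_meets _).1 (reg_meets _)]
  intro q hq hqw
  have h1 : v = w := by
    by_contra hne
    exact hx.2 a v w hne q hq ⟨(reg_meets _).1 _ ha q hq, hqw⟩
  rw [← h1]
  exact (reg_meets _).1 _ hb q hq

/-- If `x` is read continuously by `q'`, and `β` is not in the domain of `q'`, then every pure
extension of `q'` with `β` in its domain has a pure extension which forces that the pairs picked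
at `β` are homogeneous for `x`. -/
theorem exists_capture {q' : Cond Λ} {x : ℕ → Bool → Set (Cond Λ)} (hx : q' ∈ IsFun x)
    (hread : ∀ j, ∃ n, ∀ t ∈ Hist q'.X q'.C n, ∃ v, q'.next n t ∈ meets (x j v))
    {β : Λ} (hβ : β ∉ q'.D) {r0 : Cond Λ} (hr0 : Pure r0 q') (hβ0 : β ∈ r0.D) :
    ∃ r, Pure r r0 ∧ r ∈ AgreeN (gen β) x := by
  classical
  -- the values
  let V : (Λ → Finset (ℕ × ℕ)) → ℕ → Bool := fun u j =>
    decide (∃ N, q'.next N u ∈ meets (x j true))
  have hV : ∀ j, ∃ N0, ∀ k, ∀ u ∈ Hist q'.X q'.C k, ∀ N, k ≤ N → N0 ≤ N →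
      q'.next N u ∈ meets (x j (V u j)) := by
    intro j
    obtain ⟨N0, hN0⟩ := hread j
    refine ⟨N0, fun k u hu N hkN hN => ?_⟩
    obtain ⟨t1, ht1, w, hw, huw⟩ := hist_split hN u (hist_mono hkN hu)
    obtain ⟨v, hv⟩ := hN0 t1 ht1
    have h1 : q'.next N u ≤ q'.next N0 t1 := by
      refine ⟨N, w, hw, ?_⟩
      rw [Cond.next_next, max_eq_right hN, ← huw]
      exact Pure.refl _
    have h2 : q'.next N u ∈ meets (x j v) := (reg_meets _).1 _ hv _ h1
    cases v with
    | true =>
      have : V u j = true := decide_eq_true ⟨N, h2⟩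
      rw [this]
      exact h2
    | false =>
      have : V u j = false := by
        refine decide_eq_false ?_
        rintro ⟨N', hN'⟩
        have h3 : Pure (q'.next (max N N') u) (q'.next N u) := pure_drop q' (le_max_left _ _) u
        have h4 : Pure (q'.next (max N N') u) (q'.next N' u) := pure_drop q' (le_max_right _ _) u
        refine hx.2 j false true (by simp) (q'.next (max N N') u) ?_
          ⟨(reg_meets _).1 _ h2 _ h3.le, (reg_meets _).1 _ hN' _ h4.le⟩
        exact next_le q' (hist_mono (hkN.trans (le_max_left _ _)) hu)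
      rw [this]
      exact h2
  choose NV hNV using hV
  obtain ⟨q, n, xx, hq, hn0, h1, h2, h3, h4, h5⟩ := fusion (fun r => Pure r r0)
    (fun r r' hr hr' => hr'.trans hr)
    (fun r n y => y ∈ r.X ∧ ∀ t ∈ Hist r.X r.C n, ∀ e, Pick (r.C y) e → ∀ a b, (a, b) ∈ e β →
      ∃ v, r.next (y + 1) (t ⊔ e) ∈ meets (x a v) ∧ r.next (y + 1) (t ⊔ e) ∈ meets (x b v))
    (fun r r' n y hny hr hr' => by
      refine ⟨hr'.keepX y (Nat.lt_succ_self y) hr.1, fun t ht e he a b hab => ?_⟩
      rw [hr'.hist_eq (hny.trans (Nat.le_succ y))] at ht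
      rw [hr'.keepC y (Nat.lt_succ_self y) hr.1] at he
      obtain ⟨v, hv1, hv2⟩ := hr.2 t ht e he a b hab
      have h6 := (hr'.toPure.next' (y + 1) (t ⊔ e)).le
      exact ⟨v, (reg_meets _).1 _ hv1 _ h6, (reg_meets _).1 _ hv2 _ h6⟩)
    (fun r n E m hr => by
      have hT : Finite (Hist r.X r.C n) := r.finite_hist n
      have hrq : Pure r q' := hr.trans hr0
      let c : ℕ → (Λ → Finset (ℕ × ℕ)) → (Hist r.X r.C n → Bool × Bool) := fun _ e t =>
        if h : ∃ z : ℕ × ℕ, e β = {z} then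
          (V (res q'.D (t.1 ⊔ e)) h.choose.1, V (res q'.D (t.1 ⊔ e)) h.choose.2)
        else (true, true)
      have hc : ∀ y e (t : Hist r.X r.C n) a b, e β = {(a, b)} →
          c y e t = (V (res q'.D (t.1 ⊔ e)) a, V (res q'.D (t.1 ⊔ e)) b) := by
        intro y e t a b hab
        have h : ∃ z : ℕ × ℕ, e β = {z} := ⟨_, hab⟩
        have h6 : c y e t = (V (res q'.D (t.1 ⊔ e)) h.choose.1,
          V (res q'.D (t.1 ⊔ e)) h.choose.2) := dif_pos h
        have h7 : h.choose = (a, b) := by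
          have := h.choose_spec
          exact Finset.singleton_injective (this.symm.trans hab)
        rw [h6, h7]
      obtain ⟨r1, h1, h2, k, hk⟩ := homog r n (Hist r.X r.C n → Bool × Bool) c
      obtain ⟨r2, y, h3, h4, h4', h5, h6, h7, h8⟩ := exists_advance r1 n (insert β E) (max m 3)
      have hβ1 : β ∈ r1.D := h1.D (hr.D hβ0)
      have hy1 : y ∈ r1.X := h3.X h6
      -- a bound for the reading
      let N : ℕ := max (y + 1) ((r1.C y β).sup NV)
      obtain ⟨r3, g1, g2, g3, g4⟩ := exists_drop r2 y N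
      have g5 : PureN n r3 r := ((g1.mono (by omega)).trans h3).trans h1
      refine ⟨r3, y, g5, h5, g1.keepX y (Nat.lt_succ_self y) h6, fun z hz hnz => h7 z (g1.X hz) hnz,
        ?_, g1.keepX y (Nat.lt_succ_self y) h6, ?_⟩
      · intro α hα hαD
        rw [g3]
        exact (le_max_left m 3).trans (h8 α (Finset.mem_insert_of_mem hα) (h1.D hαD))
      · intro t ht e he a b hab
        rw [g5.hist_eq le_rfl] at ht
        rw [g3, h4'] at he
        -- the pair
        have hcard : 3 ≤ (r1.C y β).card := by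
          rw [← h4']
          exact (le_max_right m 3).trans (h8 β (Finset.mem_insert_self _ _) hβ1)
        obtain ⟨a', ha', b', hb', hab', heab⟩ := he.1 β (by omega)
        have hab2 : (a, b) = (a', b') := by
          rw [heab] at hab
          exact Finset.mem_singleton.1 hab
        obtain ⟨rfl, rfl⟩ : a = a' ∧ b = b' := by
          rw [Prod.mk.injEq] at hab2
          exact hab2
        -- the colour has equal components
        have hkt : (k ⟨t, ht⟩).1 = (k ⟨t, ht⟩).2 := by
          obtain ⟨a1, ha1, b1, hb1, c1, hc1, h9, h10⟩ := exists_three hcard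
          let e1 : Λ → Finset (ℕ × ℕ) := Function.update e β {(a1, b1)}
          let e2 : Λ → Finset (ℕ × ℕ) := Function.update e β {(b1, c1)}
          have hp : ∀ u v, u ∈ r1.C y β → v ∈ r1.C y β → u < v →
              Pick (r1.C y) (Function.update e β {(u, v)}) := by
            intro u v hu hv huv
            constructor
            · intro α hα
              by_cases h : α = β
              · subst h
                exact ⟨u, hu, v, hv, huv, Function.update_self _ _ _⟩
              · rw [Function.update_of_ne h]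
                exact he.1 α hα
            · intro α hα
              have h : α ≠ β := by
                rintro rfl
                omega
              rw [Function.update_of_ne h]
              exact he.2 α hα
          have hres : res q'.D (t ⊔ e1) = res q'.D (t ⊔ e2) := by
            funext α
            by_cases hα : α ∈ q'.D
            · have h : α ≠ β := fun h => hβ (h ▸ hα)
              rw [res_of_mem hα, res_of_mem hα, Pi.sup_apply, Pi.sup_apply]
              show t α ⊔ Function.update e β {(a1, b1)} α =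
                t α ⊔ Function.update e β {(b1, c1)} α
              rw [Function.update_of_ne h, Function.update_of_ne h]
            · rw [res_of_not hα, res_of_not hα]
          have h11 := hc y e1 ⟨t, ht⟩ a1 b1 (Function.update_self _ _ _)
          have h12 := hc y e2 ⟨t, ht⟩ b1 c1 (Function.update_self _ _ _)
          rw [hk y hy1 h5 _ (hp a1 b1 ha1 hb1 h9)] at h11
          rw [hk y hy1 h5 _ (hp b1 c1 hb1 hc1 h10)] at h12
          have h13 : (k ⟨t, ht⟩).2 = V (res q'.D (t ⊔ e1)) b1 := by rw [h11]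
          have h14 : (k ⟨t, ht⟩).1 = V (res q'.D (t ⊔ e2)) b1 := by rw [h12]
          rw [h13, h14, hres]
        have h15 := hc y e ⟨t, ht⟩ a b heab
        rw [hk y hy1 h5 e he] at h15
        have h16 : V (res q'.D (t ⊔ e)) a = V (res q'.D (t ⊔ e)) b := by
          have e1 : (k ⟨t, ht⟩).1 = V (res q'.D (t ⊔ e)) a := by rw [h15]
          have e2 : (k ⟨t, ht⟩).2 = V (res q'.D (t ⊔ e)) b := by rw [h15]
          rw [← e1, ← e2, hkt]
        -- the history
        have h17 : t ⊔ e ∈ Hist r1.X r1.C (y + 1) := by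
          refine hist_step hy1 (hist_mono h5 ?_) he
          rw [h1.hist_eq le_rfl]
          exact ht
        have h18 : res q'.D (t ⊔ e) ∈ Hist q'.X q'.C (y + 1) :=
          hist_res (h1.toPure.trans hrq) (y + 1) _ h17
        have h19 : Pure (r3.next (y + 1) (t ⊔ e)) (q'.next N (res q'.D (t ⊔ e))) := by
          have h20 : Pure r3 q' := g5.toPure.trans hrq
          have h21 := h20.next (y + 1) (t ⊔ e)
          refine ⟨h21.D, fun α hα => ?_, fun z hz => ⟨(h21.X hz).1, g4 z hz.1 hz.2⟩,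
            fun z hz α hα => h21.C z hz α hα⟩
          exact h21.s α hα
        have h22 : ∀ j ∈ r1.C y β, r3.next (y + 1) (t ⊔ e) ∈
            meets (x j (V (res q'.D (t ⊔ e)) j)) := by
          intro j hj
          refine (reg_meets _).1 _ (hNV j (y + 1) _ h18 N (le_max_left _ _) ?_) _ h19.le
          exact (Finset.le_sup (f := NV) hj).trans (le_max_right _ _)
        refine ⟨V (res q'.D (t ⊔ e)) a, h22 a ha', ?_⟩
        have h23 := h22 b hb'
        rwa [← h16] at h23)
    r0 (Pure.refl _) 0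
  refine ⟨q, hq.toPure, ?_⟩
  have hqx : q ∈ IsFun x := (reg_isFun x).1 _ hx q ((hq.toPure.trans hr0).le)
  have hβq : β ∈ q.D := hq.D hβ0
  refine mem_fex_of ((q.s β).sup Prod.fst + 1) fun r hr a b hab => ?_
  rw [mem_fimp_reg (reg_meets _).1 (reg_eqN _ _ _)]
  intro z hz hzE
  refine (reg_eqN x a b).2 z fun z' hz' => ?_
  obtain ⟨z'', hz'', w, hw, hzw⟩ := hzE z' hz'
  refine ⟨z'', hz'', ?_⟩
  have hmem : (a, b) ∈ z''.s β := stem_mono hzw hw
  have hzq : z'' ≤ q := hz''.trans (hz'.trans (hz.trans hr))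
  obtain ⟨k, u, hu, hpz⟩ := hzq
  have h6 : (a, b) ∈ q.s β ∪ res q.D u β := by
    rw [hpz.s β hβq] at hmem
    exact hmem
  have h7 : (a, b) ∈ u β := by
    rcases Finset.mem_union.1 h6 with h7 | h7
    · have h8 : a ≤ (q.s β).sup Prod.fst := Finset.le_sup (f := Prod.fst) h7
      omega
    · rwa [res_of_mem hβq] at h7
  obtain ⟨y, hy, hyk, t, ht, e, he, hπ, w', hw', huw⟩ := hist_locate k u hu h7
  obtain ⟨i, hi1, hi2⟩ := locate h1 h2 y (by rw [hn0]; exact Nat.zero_le y)
  have hyx : y = xx i := le_antisymm hi2 (h4 i y hy hi1)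
  have hgap : Hist q.X q.C y = Hist q.X q.C (n i) :=
    hist_gap hi1 fun y' hy1 hy2 => hi2.trans (h4 i y' hy1 hy2)
  rw [hgap] at ht
  subst hyx
  obtain ⟨v, hv1, hv2⟩ := (h5 i).2 t ht e he a b hπ
  have h9 : z'' ≤ q.next (xx i + 1) (t ⊔ e) := by
    refine ⟨k, w', hw', ?_⟩
    rw [Cond.next_next, max_eq_right (show xx i + 1 ≤ k from hyk), ← huw]
    exact hpz
  exact eqN_of ((reg_isFun x).1 _ hqx _ ⟨k, u, hu, hpz⟩) ((reg_meets _).1 _ hv1 _ h9)
    ((reg_meets _).1 _ hv2 _ h9)

end Pool.Agent.N646.MC
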