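import Pool.Agent.N646.MC.Basic

/-!
# Compatible pairs of conditions
-/

set_option autoImplicit false

namespace Pool.Agent.N646.MC

open Set Cardinal

variable {Λ : Type}

/-- The shape of a condition over the sequence `c` of indices. -/
abbrev Sh (K : Type) : Type :=
  K × Set ℕ × Set ℕ × (ℕ → Finset (ℕ × ℕ)) × (ℕ → ℕ → Finset ℕ)

/-- The shape of the condition `q` (together with `k`) over the sequence `c`. -/
def sh {K : Type} (k : K) (q : Cond Λ) (c : ℕ → Λ) : Sh K :=
  (k, q.X, {i | c i ∈ q.D}, fun i => q.s (c i), fun i x => q.C x (c i))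

theorem mk_sh_le {K : Type} (hK : #K ^ ℵ₀ = #K) (hK2 : 2 ≤ #K) : #(Sh K) ≤ #K := by
  have hc : 𝔠 ≤ #K := by
    rw [← hK, ← two_power_aleph0]
    exact power_le_power_right hK2
  have hinf : ℵ₀ ≤ #K := aleph0_le_continuum.trans hc
  have h1 : #(Set ℕ) ≤ #K := by
    rw [mk_set, mk_nat, two_power_aleph0]
    exact hc
  have h2 : #(ℕ → Finset (ℕ × ℕ)) ≤ #K := by
    rw [← power_def, mk_nat, ← hK]
    exact power_le_power_right ((mk_le_aleph0).trans hinf)
  have h3 : #(ℕ → ℕ → Finset ℕ) ≤ #K := by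
    rw [← power_def, mk_nat, ← hK]
    refine power_le_power_right ?_
    rw [← power_def, mk_nat, ← hK]
    exact power_le_power_right ((mk_le_aleph0).trans hinf)
  simp only [Sh, mk_prod, lift_id]
  exact mul_le_of_le hinf le_rfl (mul_le_of_le hinf h1 (mul_le_of_le hinf h1
    (mul_le_of_le hinf h2 h3)))

theorem exists_enum (q : Cond Λ) (a : Λ) : ∃ d : ℕ → Λ, q.D ⊆ range d := by
  rcases q.D.eq_empty_or_nonempty with h | h
  · exact ⟨fun _ => a, by rw [h]; exact Set.empty_subset _⟩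
  · obtain ⟨d, hd⟩ := q.cD.exists_eq_range h
    exact ⟨d, hd.subset⟩

/-- Among more than `#K` conditions there are two which agree on the intersection of their
domains, such that the index of the first does not belong to the domain of the second. -/
theorem exists_pair {K : Type} (hK : #K ^ ℵ₀ = #K) (hK2 : 2 ≤ #K) {G : Set Λ} (hG : #K < #G)
    (k : Λ → K) (q : Λ → Cond Λ) :
    ∃ β ∈ G, ∃ β' ∈ G, k β = k β' ∧ β ∉ (q β').D ∧ (q β).X = (q β').X ∧
      ∀ α ∈ (q β).D, α ∈ (q β').D → (q β).s α = (q β').s α ∧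
        ∀ x, (q β).C x α = (q β').C x α := by
  classical
  have hc : 𝔠 ≤ #K := by
    rw [← hK, ← two_power_aleph0]
    exact power_le_power_right hK2
  have hinf : ℵ₀ ≤ #K := aleph0_le_continuum.trans hc
  obtain ⟨l0, hl0⟩ : G.Nonempty := by
    rw [← Set.nonempty_coe_sort, ← mk_ne_zero_iff]
    exact (lt_of_le_of_lt bot_le hG).ne'
  choose d hd using fun β => exists_enum (q β) l0
  -- the witnesses
  let g : (ℕ → Λ) → Sh K → Λ := fun c σ =>
    if h : ∃ β ∈ G, sh (k β) (q β) c = σ then h.choose else l0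
  have hg : ∀ c σ, (∃ β ∈ G, sh (k β) (q β) c = σ) →
      g c σ ∈ G ∧ sh (k (g c σ)) (q (g c σ)) c = σ := by
    intro c σ h
    have h1 : g c σ = h.choose := dif_pos h
    rw [h1]
    exact h.choose_spec
  -- the closure
  let A : Type := (Sh K × ℕ) ⊕ Unit
  let ar : A → Type := fun a => match a with
    | Sum.inl _ => ℕ
    | Sum.inr _ => Empty
  let φ : WType ar → Λ := WType.elim Λ (fun z => match z with
    | ⟨Sum.inl (σ, j), f⟩ => d (g f σ) j
    | ⟨Sum.inr _, _⟩ => l0)
  have hφ1 : ∀ (σ : Sh K) (j : ℕ) (f : ℕ → WType ar),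
      φ (WType.mk (Sum.inl (σ, j)) f) = d (g (fun i => φ (f i)) σ) j := fun σ j f => rfl
  let B : Set Λ := range φ
  have hA : #A ≤ #K := by
    have h1 : #(Sh K × ℕ) ≤ #K := by
      rw [mk_prod, lift_id, lift_id, mk_nat]
      exact mul_le_of_le hinf (mk_sh_le hK hK2) hinf
    have h2 : #A = #(Sh K × ℕ) + #Unit := by
      rw [mk_sum, lift_id, lift_id]
    rw [h2]
    exact add_le_of_le hinf h1 ((mk_le_aleph0).trans hinf)
  have hBcard : #B ≤ #K := by
    refine mk_range_le.trans (WType.cardinalMk_le_of_le ?_)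
    have h1 : (sum fun a : A => #K ^ #(ar a)) ≤ sum fun _ : A => #K := by
      refine Cardinal.sum_le_sum _ _ fun a => ?_
      rcases a with a | a
      · show #K ^ #ℕ ≤ #K
        rw [mk_nat, hK]
      · show #K ^ #Empty ≤ #K
        rw [mk_empty, power_zero]
        exact (one_le_aleph0).trans hinf
    refine h1.trans ?_
    rw [sum_const']
    exact mul_le_of_le hinf hA le_rfl
  have hBG : ¬ G ⊆ B := fun h => absurd (mk_le_mk_of_subset h) (not_le.2 (lt_of_le_of_lt hBcard hG))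
  obtain ⟨β, hβG, hβB⟩ := Set.not_subset.1 hBG
  -- an enumeration of the common part
  have hB0 : l0 ∈ B := ⟨WType.mk (Sum.inr ()) (fun z => z.elim), rfl⟩
  obtain ⟨c, hc1⟩ : ∃ c : ℕ → Λ, range c = insert l0 ((q β).D ∩ B) := by
    have h1 : (insert l0 ((q β).D ∩ B)).Countable := ((q β).cD.mono Set.inter_subset_left).insert _
    obtain ⟨c, hc⟩ := h1.exists_eq_range (Set.insert_nonempty _ _)
    exact ⟨c, hc.symm⟩
  have hcB : ∀ i, c i ∈ B := by
    intro i
    have h1 : c i ∈ insert l0 ((q β).D ∩ B) := hc1 ▸ mem_range_self i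
    rcases h1 with h1 | h1
    · rw [h1]
      exact hB0
    · exact h1.2
  choose f hf using hcB
  have hfc : (fun i => φ (f i)) = c := funext hf
  let σ := sh (k β) (q β) c
  obtain ⟨h1, h2⟩ := hg c σ ⟨β, hβG, rfl⟩
  have hD : (q (g c σ)).D ⊆ B := by
    intro α hα
    obtain ⟨j, hj⟩ := hd (g c σ) hα
    refine ⟨WType.mk (Sum.inl (σ, j)) f, ?_⟩
    rw [hφ1, hfc]
    exact hj
  refine ⟨β, hβG, g c σ, h1, ?_, fun h => hβB (hD h), ?_, ?_⟩
  · exact (congrArg (fun z : Sh K => z.1) h2).symm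
  · exact (congrArg (fun z : Sh K => z.2.1) h2).symm
  · intro α hα hα'
    have h3 : α ∈ range c := by
      rw [hc1]
      exact Or.inr ⟨hα, hD hα'⟩
    obtain ⟨i, rfl⟩ := h3
    have h4 := congrFun (congrArg (fun z : Sh K => z.2.2.2.1) h2) i
    have h5 := congrFun (congrArg (fun z : Sh K => z.2.2.2.2) h2) i
    exact ⟨h4.symm, fun x => (congrFun h5 x).symm⟩

end Pool.Agent.N646.MC
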