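import Pool.Agent.N646.MC.Ramsey
import Pool.Agent.TH773.PSet.Rep

/-!
# Pure decision
-/

set_option autoImplicit false

namespace Pool.Agent.N646.MC

open Set Pool.Agent.TH773.PSet

variable {Λ : Type}

theorem hist_mono_X {X Y : Set ℕ} {C : ℕ → Λ → Finset ℕ} (h : X ⊆ Y) (m : ℕ) :
    Hist X C m ⊆ Hist Y C m := by
  induction m with
  | zero => exact Subset.rfl
  | succ m ih =>
    rintro u (hu | ⟨hm, t, ht, e, he, rfl⟩)
    · exact Or.inl (ih hu)
    · exact Or.inr ⟨h hm, t, ih ht, e, he, rfl⟩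

theorem locate {n x : ℕ → ℕ} (h0 : ∀ i, n i ≤ x i) (h1 : ∀ i, n (i + 1) = x i + 1) (m : ℕ)
    (hm : n 0 ≤ m) : ∃ i, n i ≤ m ∧ m ≤ x i := by
  have hlt : ∀ i, n i < n (i + 1) := fun i => by
    rw [h1]
    exact Nat.lt_succ_of_le (h0 i)
  have hn : StrictMono n := strictMono_nat_of_lt_succ hlt
  classical
  have h2 : ∃ k, m < n k := ⟨m + 1, lt_of_lt_of_le (Nat.lt_succ_self m) (hn.id_le _)⟩
  have h3 := Nat.find_spec h2
  have h4 : Nat.find h2 ≠ 0 := by
    intro h5
    rw [h5] at h3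
    omega
  obtain ⟨i, hi⟩ := Nat.exists_eq_succ_of_ne_zero h4
  refine ⟨i, ?_, ?_⟩
  · have := Nat.find_min h2 (m := i) (by omega)
    omega
  · rw [hi, Nat.succ_eq_add_one, h1] at h3
    omega

section

variable {κ : Type}

/-- No pure extension of `p` belongs to the union of the sets `O v`. -/
def Bad (O : κ → Set (Cond Λ)) (p : Cond Λ) : Prop := ∀ q, Pure q p → ∀ v, q ∉ O v

/-- Each history of `r` is either decided or bad. -/
def Det (O : κ → Set (Cond Λ)) (r : Cond Λ) : Prop :=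
  ∀ n, ∀ t ∈ Hist r.X r.C n, (∃ v, r.next n t ∈ O v) ∨ Bad O (r.next n t)

variable {O : κ → Set (Cond Λ)}

theorem Bad.mono {q p : Cond Λ} (h : Bad O p) (hq : Pure q p) : Bad O q :=
  fun r hr => h r (hr.trans hq)

theorem dec_mono (hO : ∀ v, Reg (O v)) {q p : Cond Λ} (hq : Pure q p)
    (h : (∃ v, p ∈ O v) ∨ Bad O p) : (∃ v, q ∈ O v) ∨ Bad O q := by
  rcases h with ⟨v, hv⟩ | h
  · exact Or.inl ⟨v, (hO v).1 p hv q hq.le⟩
  · exact Or.inr (h.mono hq)

theorem det_mono (hO : ∀ v, Reg (O v)) {q p : Cond Λ} (hq : Pure q p) (h : Det O p) :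
    Det O q := by
  intro n t ht
  exact dec_mono hO (hq.next n t) (h n _ (hist_res hq n t ht))

theorem exists_det (hO : ∀ v, Reg (O v)) (p : Cond Λ) : ∃ q, Pure q p ∧ Det O q := by
  obtain ⟨q, n, x, hq, hn0, h1, h2, h3, h4, h5⟩ := fusion (fun _ => True)
    (fun _ _ _ _ => trivial)
    (fun r n _ => ∀ t ∈ Hist r.X r.C n, (∃ v, r.next n t ∈ O v) ∨ Bad O (r.next n t))
    (fun r r' n x hnx hr hr' t ht => by
      rw [hr'.hist_eq (hnx.trans (Nat.le_succ x))] at ht
      exact dec_mono hO (hr'.toPure.next' n t) (hr t ht))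
    (fun r n E m _ => by
      obtain ⟨r1, h1, h2⟩ := exists_all_hist (n := n)
        (fun _ q => (∃ v, q ∈ O v) ∨ Bad O q) (fun _ _ _ hq hq' => dec_mono hO hq' hq) r
        (fun _ _ q _ => by
          by_cases hb : Bad O q
          · exact ⟨q, Pure.refl q, Or.inr hb⟩
          · unfold Bad at hb
            push Not at hb
            obtain ⟨w, hw, v, hv⟩ := hb
            exact ⟨w, hw, Or.inl ⟨v, hv⟩⟩)
      obtain ⟨r2, x, h3, h4, _, h5, h6, h7, h8⟩ := exists_advance r1 n E m
      refine ⟨r2, x, h3.trans h1, h5, h6, h7, fun α hα hαD => h8 α hα (h1.D hαD), ?_⟩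
      intro t ht
      rw [(h3.trans h1).hist_eq le_rfl] at ht
      exact dec_mono hO (h3.toPure.next' n t) (h2 t ht))
    p trivial 0
  refine ⟨q, hq.toPure, fun m t ht => ?_⟩
  obtain ⟨i, hi1, hi2⟩ := locate h1 h2 m (by rw [hn0]; exact Nat.zero_le m)
  have hgap : Hist q.X q.C m = Hist q.X q.C (n i) :=
    hist_gap hi1 fun y hy hy' => hi2.trans (h4 i y hy hy')
  rw [hgap] at ht
  exact dec_mono hO (pure_drop q hi1 t) (h5 i t ht)

/-- If all conditions obtained by one more pick belong to a regular set, then the condition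
belongs to it. -/
theorem one_step_dense {r : Cond Λ} {n : ℕ} {t : Λ → Finset (ℕ × ℕ)} {φ : Set (Cond Λ)}
    (hφ : Reg φ)
    (h : ∀ y ∈ r.X, n ≤ y → ∀ e, Pick (r.C y) e → r.next (y + 1) (t ⊔ e) ∈ φ) :
    r.next n t ∈ φ := by
  refine hφ.2 _ ?_
  rintro z ⟨m, u, hu, hz⟩
  rcases hist_head m u hu with rfl | ⟨y, hy, hym, e, he, w, hw, rfl⟩
  · obtain ⟨y, hy⟩ := z.inf.nonempty
    obtain ⟨e, he⟩ := exists_pick (z.C y)
    have hyr := hz.X hy
    have hny : n ≤ y := hyr.1.2
    have hmy : m ≤ y := hyr.2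
    refine ⟨z.next (y + 1) (⊥ ⊔ e), next_le z (hist_step hy (bot_mem_hist _ _ _) he), ?_⟩
    have h1 : Pick (r.C y) (res r.D e) := pick_res hz hy he
    have h2 := h y hyr.1.1 hny _ h1
    refine hφ.1 _ h2 _ (Pure.le ?_)
    have h3 := hz.next (y + 1) (⊥ ⊔ e)
    rw [Cond.next_next, Cond.next_next] at h3
    have h4 : max n (max m (y + 1)) = y + 1 := by omega
    have h5 : t ⊔ (⊥ ⊔ res ((r.next n t).next m ⊥).D (⊥ ⊔ e)) = t ⊔ res r.D e := by
      rw [bot_sup_eq, bot_sup_eq]
      rfl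
    rw [h4, h5] at h3
    exact h3
  · have hny : n ≤ y := hy.2
    refine ⟨z, le_rfl, ?_⟩
    refine hφ.1 _ (h y hy.1 hny e he) z ⟨m, w, ?_, ?_⟩
    · refine hist_mono_X ?_ m hw
      rintro x ⟨hx1, hx2⟩
      exact ⟨hx1.1, hx2⟩
    · rw [Cond.next_next] at hz ⊢
      have h4 : max n m = m := by omega
      have h5 : max (y + 1) m = m := by omega
      rw [h4] at hz
      rw [h5, sup_assoc]
      exact hz

/-- Pure decision: a condition below which the union of finitely many regular sets is dense has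
a pure extension in one of them. -/
theorem pure_decide [Finite κ] (hO : ∀ v, Reg (O v)) {p : Cond Λ}
    (hd : ∀ q ≤ p, ∃ r ≤ q, ∃ v, r ∈ O v) : ∃ q, Pure q p ∧ ∃ v, q ∈ O v := by
  classical
  by_contra hcon
  have hbad : Bad O p := by
    intro q hq v hv
    exact hcon ⟨q, hq, v, hv⟩
  obtain ⟨q1, hq1, hdet⟩ := exists_det hO p
  obtain ⟨q, n, x, hq, hn0, h1, h2, h3, h4, h5⟩ := fusion (Det O)
    (fun r r' hr hr' => det_mono hO hr' hr)
    (fun r n x => x ∈ r.X ∧ ∀ t ∈ Hist r.X r.C n, ∀ e, Pick (r.C x) e →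
      (∃ v, r.next n t ∈ O v) ∨ Bad O (r.next (x + 1) (t ⊔ e)))
    (fun r r' n x hnx hr hr' => by
      refine ⟨hr'.keepX x (Nat.lt_succ_self x) hr.1, fun t ht e he => ?_⟩
      rw [hr'.hist_eq (hnx.trans (Nat.le_succ x))] at ht
      rw [hr'.keepC x (Nat.lt_succ_self x) hr.1] at he
      rcases hr.2 t ht e he with ⟨v, hv⟩ | hb
      · exact Or.inl ⟨v, (hO v).1 _ hv _ (hr'.toPure.next' n t).le⟩
      · exact Or.inr (hb.mono (hr'.toPure.next' _ _)))
    (fun r n E m hr => by
      have hT : Finite (Hist r.X r.C n) := r.finite_hist n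
      let c : ℕ → (Λ → Finset (ℕ × ℕ)) → (Hist r.X r.C n → Option κ) := fun y e t =>
        if h : ∃ v, r.next (y + 1) (t.1 ⊔ e) ∈ O v then some h.choose else none
      have hc1 : ∀ y e (t : Hist r.X r.C n) v, c y e t = some v →
          r.next (y + 1) (t.1 ⊔ e) ∈ O v := by
        intro y e t v hv
        by_cases h : ∃ v, r.next (y + 1) (t.1 ⊔ e) ∈ O v
        · have h6 : c y e t = some h.choose := dif_pos h
          rw [h6] at hv
          rw [← Option.some.inj hv]
          exact h.choose_spec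
        · have h6 : c y e t = none := dif_neg h
          rw [h6] at hv
          exact absurd hv (by simp)
      have hc2 : ∀ y e (t : Hist r.X r.C n), c y e t = none →
          ∀ v, r.next (y + 1) (t.1 ⊔ e) ∉ O v := by
        intro y e t hv v hmem
        have h : ∃ v, r.next (y + 1) (t.1 ⊔ e) ∈ O v := ⟨v, hmem⟩
        have h6 : c y e t = some h.choose := dif_pos h
        rw [h6] at hv
        exact absurd hv (by simp)
      obtain ⟨r1, h1, h2, k, hk⟩ := homog r n (Hist r.X r.C n → Option κ) c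
      obtain ⟨r2, x, h3, h4, h4', h5, h6, h7, h8⟩ := exists_advance r1 n E m
      refine ⟨r2, x, h3.trans h1, h5, h6, h7, fun α hα hαD => h8 α hα (h1.D hαD), h6, ?_⟩
      intro t ht e he
      rw [(h3.trans h1).hist_eq le_rfl] at ht
      rw [h4'] at he
      have hx1 : x ∈ r1.X := h3.X h6
      rcases hkt : k ⟨t, ht⟩ with _ | v
      · right
        have h9 : c x e ⟨t, ht⟩ = none := by
          rw [hk x hx1 h5 e he]
          exact hkt
        have h10 : Pick (r.C x) e := by
          have := pick_res h1.toPure hx1 he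
          have h11 : res r.D e = e := by
            funext α
            by_cases hα : α ∈ r.D
            · exact res_of_mem hα
            · rw [res_of_not hα]
              refine (he.2 α ?_).symm
              rw [r1.CD x α (by rw [h2]; exact hα)]
              simp
          rwa [h11] at this
        have h12 : t ⊔ e ∈ Hist r.X r.C (x + 1) :=
          hist_step (h1.X hx1) (hist_mono h5 ht) h10
        rcases hr (x + 1) _ h12 with ⟨v, hv⟩ | hb
        · exact absurd hv (hc2 x e ⟨t, ht⟩ h9 v)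
        · exact hb.mono ((h3.toPure.next' _ _).trans (h1.toPure.next' _ _))
      · left
        refine ⟨v, (hO v).1 _ (one_step_dense (hO v) ?_) _ (h3.toPure.next' n t).le⟩
        intro y hy hny e' he'
        have h9 : c y e' ⟨t, ht⟩ = some v := by
          rw [hk y hy hny e' he']
          exact hkt
        exact (hO v).1 _ (hc1 _ _ _ _ h9) _ (h1.toPure.next' _ _).le)
    q1 hdet 0
  have key : ∀ m, ∀ t ∈ Hist q.X q.C m, Bad O (q.next m t) := by
    intro m
    induction m with
    | zero =>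
      intro t ht
      have : t = ⊥ := ht
      rw [this, next_bot]
      exact hbad.mono (hq.toPure.trans hq1)
    | succ m ih =>
      intro t ht
      rcases ht with ht | ⟨hm, t1, ht1, e, he, rfl⟩
      · exact (ih t ht).mono (pure_drop q (Nat.le_succ m) t)
      · obtain ⟨i, hi1, hi2⟩ := locate h1 h2 m (by rw [hn0]; exact Nat.zero_le m)
        have hmx : m = x i := le_antisymm hi2 (h4 i m hm hi1)
        have hgap : Hist q.X q.C m = Hist q.X q.C (n i) :=
          hist_gap hi1 fun y hy hy' => hi2.trans (h4 i y hy hy')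
        have ht1' := ht1
        rw [hgap] at ht1'
        rw [hmx] at he
        rcases (h5 i).2 t1 ht1' e he with ⟨v, hv⟩ | hb
        · exact absurd ((hO v).1 _ hv _ (pure_drop q hi1 t1).le)
            (ih t1 ht1 _ (Pure.refl _) v)
        · rw [hmx]
          exact hb
  obtain ⟨r, ⟨m, t, ht, hr⟩, v, hv⟩ := hd q (hq.toPure.trans hq1).le
  exact key m t ht r hr v hv

/-- Pure decision for all histories at once. -/
theorem pure_decide_all [Finite κ] (hO : ∀ v, Reg (O v)) {p : Cond Λ} (n : ℕ)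
    (hd : ∀ q ≤ p, ∃ r ≤ q, ∃ v, r ∈ O v) :
    ∃ q, PureN n q p ∧ ∀ t ∈ Hist p.X p.C n, ∃ v, q.next n t ∈ O v :=
  exists_all_hist (n := n) (fun _ q => ∃ v, q ∈ O v)
    (fun _ _ _ hq hq' => by
      obtain ⟨v, hv⟩ := hq
      exact ⟨v, (hO v).1 _ hv _ hq'.le⟩) p
    (fun t ht q hq => pure_decide hO fun q' hq' => hd q' (hq'.trans (hq.le.trans (next_le p ht))))

end

end Pool.Agent.N646.MC
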