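import Pool.Agent.N646.MC.Capture
import Pool.Agent.N646.MC.Closure

/-!
# The sentence is forced
-/

set_option autoImplicit false

namespace Pool.Agent.N646.MC

open Set Cardinal Pool.Agent.TH773.PSet Pool.Agent.R593.Rnd

variable {Λ K : Type}

theorem reg_largeN {P : Type} [Preorder P] (E : ℕ → ℕ → Set P) : Reg (LargeN E) :=
  reg_fall fun _ => reg_fex _

theorem not_reg {P : Type} [Preorder P] {φ : Set P} (h : Reg φ) {p : P} (hp : p ∉ φ) :
    ∃ q ≤ p, ∀ r ≤ q, r ∉ φ := by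
  by_contra hcon
  push Not at hcon
  exact hp (h.2 p hcon)

theorem cap_forced (hK : #K ^ ℵ₀ = #K) (hK2 : 2 ≤ #K) (hΛ : #K < #Λ) (p : Cond Λ) :
    p ∈ CapN (Cond Λ) K := by
  classical
  intro x
  rw [mem_fimp_reg (fun _ h _ h' => down_fall (fun k => (reg_isFun (x k)).1) _ h _ h')
    (reg_fex _)]
  intro q _ hq
  rw [mem_fex]
  intro q0 hq0
  by_contra hcon
  push Not at hcon
  have hq0x : ∀ k, q0 ∈ IsFun (x k) := fun k => (reg_isFun (x k)).1 _ (hq k) _ hq0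
  -- the bad conditions
  have hbad : ∀ β : Λ, β ∉ q0.D → ∃ k : K, ∃ r : Cond Λ, r ≤ q0 ∧
      (∀ z ≤ r, z ∉ AgreeN (gen β) (x k)) ∧
      ∀ j, ∃ n, ∀ t ∈ Hist r.X r.C n, ∃ v, r.next n t ∈ meets (x k j v) := by
    intro β _
    obtain ⟨q1, hq1, hβ1⟩ := exists_add q0 β
    have h1 : q1 ∉ fall fun k => AgreeN (gen β) (x k) := fun h =>
      hcon q1 hq1.le (gen β) ⟨large_gen hβ1, h⟩
    obtain ⟨k, hk⟩ : ∃ k, q1 ∉ AgreeN (gen β) (x k) := by
      by_contra h2
      push Not at h2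
      exact h1 h2
    obtain ⟨q2, hq2, h3⟩ := not_reg (reg_fex _) hk
    have hq2x : q2 ∈ IsFun (x k) := (reg_isFun (x k)).1 _ (hq0x k) _ (hq2.trans hq1.le)
    obtain ⟨q3, hq3, h4⟩ := exists_read (κ := fun _ => Bool)
      (O := fun j v => meets (x k j v)) (fun _ _ => reg_meets _) q2
      (fun j z hz => mem_fex.1 (hq2x.1 j) z hz)
    exact ⟨k, q3, hq3.le.trans (hq2.trans hq1.le), fun z hz => h3 z (hz.trans hq3.le), h4⟩
  have hK0 : Nonempty K := by
    rw [← mk_ne_zero_iff]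
    intro h
    rw [h] at hK2
    exact absurd hK2 (by simp)
  have hc : 𝔠 ≤ #K := by
    rw [← hK, ← two_power_aleph0]
    exact power_le_power_right hK2
  have hinf : ℵ₀ ≤ #K := aleph0_le_continuum.trans hc
  have hG : #K < #(q0.Dᶜ : Set Λ) := by
    by_contra hle
    push Not at hle
    have h1 : #q0.D + #(q0.Dᶜ : Set Λ) = #Λ := mk_sum_compl _
    have h2 : #q0.D + #(q0.Dᶜ : Set Λ) ≤ #K :=
      add_le_of_le hinf ((le_aleph0_iff_set_countable.2 q0.cD).trans hinf) hle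
    rw [h1] at h2
    exact absurd h2 (not_le.2 hΛ)
  choose! k r hr1 hr2 hr3 using hbad
  obtain ⟨β, hβ, β', hβ', hk, hββ', hX, hagree⟩ := exists_pair hK hK2 hG k r
  have hr : Pure (union (r β) (r β') hX) (r β) := union_pure_left _ _ _
  have hr' : Pure (union (r β) (r β') hX) (r β') := union_pure_right _ _ _ hagree
  obtain ⟨r1, hr11, hβr1⟩ := exists_add (union (r β) (r β') hX) β
  have hx' : r β' ∈ IsFun (x (k β')) := (reg_isFun _).1 _ (hq0x _) _ (hr1 β' hβ')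
  obtain ⟨r2, hr2', hr2''⟩ := exists_capture hx' (hr3 β' hβ') hββ' (hr11.trans hr') hβr1
  refine hr2 β hβ r2 (hr2'.le.trans (hr11.le.trans hr.le)) ?_
  rw [hk]
  exact hr2''

theorem esc_forced (hK : 𝔠 ≤ #K) (p : Cond Λ) : p ∈ EscN (Cond Λ) K := by
  classical
  -- an enumeration of the functions `y` with `y j ≤ j`
  let Y : Type := {y : ℕ → ℕ // ∀ j, y j ≤ j}
  have hY : #Y ≤ #K := by
    refine le_trans ?_ hK
    refine (mk_subtype_le _).trans ?_
    rw [← power_def, mk_nat]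
    exact (aleph0_power_aleph0).le
  obtain ⟨e⟩ := (Cardinal.le_def _ _).1 hY
  have hYne : Nonempty Y := ⟨⟨fun _ => 0, fun j => Nat.zero_le j⟩⟩
  obtain ⟨g, hg⟩ : ∃ g : K → Y, Function.Surjective g :=
    ⟨Function.invFun e, Function.invFun_surjective e.injective⟩
  refine mem_fex_of (fun k => check (g k).1) fun q _ => ⟨fun k => ⟨check_isFun _ _, ?_⟩, ?_⟩
  · intro j v hjv r _ hr
    have h1 := mem_meets_check.1 hr
    have h2 := (g k).2 j
    omega
  · intro h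
    rw [mem_fimp_reg (reg_isFun h).1 (reg_fex _)]
    intro q1 _ hq1
    rw [mem_fex]
    intro q2 hq2
    obtain ⟨q3, hq3, y, hy, m, hm⟩ := laver h q2 ((reg_isFun h).1 _ hq1 _ hq2)
    obtain ⟨k, hk⟩ := hg ⟨y, hy⟩
    refine ⟨q3, hq3.le, k, mem_fex_of m fun r hr j hmj v z hz hz' => ?_⟩
    have h0 : z ∈ meets (check (g k).1 j v) := hz'.2
    rw [hk] at h0
    have h1 : y j = v := mem_meets_check.1 h0
    have h2 := hm j hmj z (hz.trans hr)
    rw [h1] at h2
    exact h2 hz'.1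

/-- The sentence is forced by all conditions. -/
theorem phiHolds (hK : #K ^ ℵ₀ = #K) (hK2 : 2 ≤ #K) (hΛ : #K < #Λ) (p : Cond Λ) :
    p ∈ PhiHolds (Cond Λ) K := by
  have hc : 𝔠 ≤ #K := by
    rw [← hK, ← two_power_aleph0]
    exact power_le_power_right hK2
  exact ⟨cap_forced hK hK2 hΛ p, esc_forced hc p⟩

end Pool.Agent.N646.MC
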