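import Pool.Agent.N646.MC.Basic

/-!
# Fusion
-/

set_option autoImplicit false

namespace Pool.Agent.N646.MC

open Set

variable {Λ : Type}

theorem finite_pick {B : Λ → Finset ℕ} (h : {α | 2 ≤ (B α).card}.Finite) :
    {e | Pick B e}.Finite := by
  classical
  let A : Set Λ := {α | 2 ≤ (B α).card}
  have : Finite A := h
  let S : Set (A → Finset (ℕ × ℕ)) := Set.pi univ fun a => ↑((B a ×ˢ B a).powerset)
  have hS : S.Finite := Set.Finite.pi fun a => Finset.finite_toSet _
  refine (hS.image fun g α => if h : α ∈ A then g ⟨α, h⟩ else ∅).subset ?_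
  intro e he
  refine ⟨fun a => e a, ?_, ?_⟩
  · intro a _
    obtain ⟨x, hx, y, hy, _, h1⟩ := he.1 a a.2
    show e a ∈ ((B a ×ˢ B a).powerset : Set (Finset (ℕ × ℕ)))
    rw [h1]
    simp [hx, hy]
  · funext α
    by_cases hα : α ∈ A
    · simp only [hα, dite_true]
    · simp only [hα, dite_false]
      exact (he.2 α (not_le.1 hα)).symm

theorem finite_hist {X : Set ℕ} {C : ℕ → Λ → Finset ℕ} (hC : ∀ x, {α | 2 ≤ (C x α).card}.Finite)
    (n : ℕ) : (Hist X C n).Finite := by
  induction n with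
  | zero => exact Set.finite_singleton _
  | succ n ih =>
    refine (ih.union ((ih.prod (finite_pick (hC n))).image fun z => z.1 ⊔ z.2)).subset ?_
    rintro u (hu | ⟨_, t, ht, e, he, rfl⟩)
    · exact Or.inl hu
    · exact Or.inr ⟨(t, e), ⟨ht, he⟩, rfl⟩

theorem Cond.finite_hist (p : Cond Λ) (n : ℕ) : (Hist p.X p.C n).Finite := MC.finite_hist p.fin n

/-- `q` is a pure extension of `p` with the same blocks below `n`. -/
structure PureN (n : ℕ) (q p : Cond Λ) : Prop extends Pure q p where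
  keepX : ∀ x < n, x ∈ p.X → x ∈ q.X
  keepC : ∀ x < n, x ∈ p.X → q.C x = p.C x

theorem PureN.refl (n : ℕ) (p : Cond Λ) : PureN n p p :=
  { Pure.refl p with
    keepX := fun _ _ h => h
    keepC := fun _ _ _ => rfl }

theorem PureN.trans {n : ℕ} {r q p : Cond Λ} (h : PureN n r q) (h' : PureN n q p) :
    PureN n r p :=
  { h.toPure.trans h'.toPure with
    keepX := fun x hx hp => h.keepX x hx (h'.keepX x hx hp)
    keepC := fun x hx hp => (h.keepC x hx (h'.keepX x hx hp)).trans (h'.keepC x hx hp) }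

theorem PureN.mono {m n : ℕ} (hmn : m ≤ n) {q p : Cond Λ} (h : PureN n q p) : PureN m q p :=
  { h.toPure with
    keepX := fun x hx hp => h.keepX x (lt_of_lt_of_le hx hmn) hp
    keepC := fun x hx hp => h.keepC x (lt_of_lt_of_le hx hmn) hp }

theorem PureN.hist_eq {n : ℕ} {q p : Cond Λ} (h : PureN n q p) {m : ℕ} (hm : m ≤ n) :
    Hist q.X q.C m = Hist p.X p.C m :=
  hist_congr (fun x hx => ⟨fun h1 => h.X h1, fun h1 => h.keepX x (lt_of_lt_of_le hx hm) h1⟩)
    fun x hx h1 => h.keepC x (lt_of_lt_of_le hx hm) (h.X h1)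

theorem pureN_zero {q p : Cond Λ} (h : Pure q p) : PureN 0 q p :=
  { h with
    keepX := fun _ hx => absurd hx (Nat.not_lt_zero _)
    keepC := fun _ hx => absurd hx (Nat.not_lt_zero _) }

/-! ### Grafting -/

open Classical in
/-- Below `n` the blocks of `r`, from `n` on the blocks of `w`. -/
noncomputable def graft (r w : Cond Λ) (n : ℕ) (hD : r.D ⊆ w.D) : Cond Λ where
  D := w.D
  s := fun α => if α ∈ r.D then r.s α else w.s α
  X := {x | (x < n ∧ x ∈ r.X) ∨ (n ≤ x ∧ x ∈ w.X)}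
  C := fun x => if x < n then r.C x else w.C x
  cD := w.cD
  sD := fun α h => by
    have h1 : α ∉ r.D := fun h2 => h (hD h2)
    rw [if_neg h1]
    exact w.sD α h
  CD := fun x α h => by
    have h1 : α ∉ r.D := fun h2 => h (hD h2)
    by_cases hx : x < n
    · rw [if_pos hx]
      exact r.CD x α h1
    · rw [if_neg hx]
      exact w.CD x α h
  inf := by
    intro hf
    refine w.inf ((hf.union (Set.finite_lt_nat n)).subset ?_)
    intro x hx
    by_cases h : n ≤ x
    · exact Or.inl (Or.inr ⟨h, hx⟩)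
    · exact Or.inr (not_le.1 h)
  fin := fun x => by
    by_cases hx : x < n
    · rw [if_pos hx]
      exact r.fin x
    · rw [if_neg hx]
      exact w.fin x
  big := fun α h N => by
    obtain ⟨x0, hx0⟩ := w.big α h N
    refine ⟨max n x0, fun x hx h1 => ?_⟩
    have h2 : ¬ x < n := not_lt.2 ((le_max_left _ _).trans h1)
    rw [if_neg h2]
    rcases hx with h3 | h3
    · exact absurd h3.1 h2
    · exact hx0 x h3.2 ((le_max_right _ _).trans h1)

/-- Grafting a pure extension of one of the conditions `r.next n t`. -/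
theorem exists_graft {r w : Cond Λ} {n : ℕ} {t : Λ → Finset (ℕ × ℕ)} (ht : t ∈ Hist r.X r.C n)
    (hw : Pure w (r.next n t)) : ∃ r', PureN n r' r ∧ Pure (r'.next n t) w := by
  classical
  have hD : r.D ⊆ w.D := hw.D
  refine ⟨graft r w n hD, ?_, ?_⟩
  · refine { D := hD, s := ?_, X := ?_, C := ?_, keepX := ?_, keepC := ?_ }
    · intro α hα
      exact if_pos hα
    · rintro x (hx | hx)
      · exact hx.2
      · exact (hw.X hx.2).1
    · rintro x hx α hα
      by_cases h1 : x < n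
      · have : (graft r w n hD).C x = r.C x := if_pos h1
        rw [this]
        exact ⟨Subset.rfl, id⟩
      · have : (graft r w n hD).C x = w.C x := if_neg h1
        rw [this]
        rcases hx with hx | hx
        · exact absurd hx.1 h1
        · exact hw.C x hx.2 α hα
    · intro x hx hx'
      exact Or.inl ⟨hx, hx'⟩
    · intro x hx _
      exact if_pos hx
  · refine ⟨Subset.rfl, ?_, ?_, ?_⟩
    · intro α hα
      show ((graft r w n hD).s ⊔ res w.D t) α = w.s α
      rw [Pi.sup_apply, res_of_mem hα]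
      by_cases h1 : α ∈ r.D
      · have h2 : (graft r w n hD).s α = r.s α := if_pos h1
        have h3 := hw.s α h1
        have h4 : (r.next n t).s α = r.s α ⊔ res r.D t α := rfl
        rw [h2, h3, h4, res_of_mem h1]
      · have h2 : (graft r w n hD).s α = w.s α := if_neg h1
        rw [h2, r.hist_supp ht α h1]
        simp
    · rintro x ⟨hx | hx, hx'⟩
      · exact absurd hx' (not_le.2 hx.1)
      · exact hx.2
    · rintro x hx α _
      have h1 : ¬ x < n := not_lt.2 hx.2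
      have : (graft r w n hD).C x = w.C x := if_neg h1
      show (graft r w n hD).C x α ⊆ w.C x α ∧ _
      rw [this]
      refine ⟨Subset.rfl, fun h => ?_⟩
      show 2 ≤ ((graft r w n hD).C x α).card
      rw [this]
      exact h

/-- Treating finitely many histories one after the other. -/
theorem exists_all_hist {n : ℕ} (Q : (Λ → Finset (ℕ × ℕ)) → Cond Λ → Prop)
    (hQ : ∀ t q q', Q t q → Pure q' q → Q t q') (r : Cond Λ)
    (hex : ∀ t ∈ Hist r.X r.C n, ∀ q, Pure q (r.next n t) → ∃ w, Pure w q ∧ Q t w) :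
    ∃ r', PureN n r' r ∧ ∀ t ∈ Hist r.X r.C n, Q t (r'.next n t) := by
  classical
  have key : ∀ T : Set (Λ → Finset (ℕ × ℕ)), T.Finite → T ⊆ Hist r.X r.C n →
      ∃ r', PureN n r' r ∧ ∀ t ∈ T, Q t (r'.next n t) := by
    intro T hT
    induction T, hT using Set.Finite.induction_on with
    | empty => exact fun _ => ⟨r, PureN.refl _ _, fun t ht => absurd ht (Set.notMem_empty t)⟩
    | @insert t T _ _ ih =>
      intro hsub
      obtain ⟨r1, h1, h2⟩ := ih ((Set.subset_insert _ _).trans hsub)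
      obtain ⟨w, hw, hQw⟩ := hex t (hsub (Set.mem_insert _ _)) (r1.next n t)
        (h1.toPure.next' n t)
      have ht : t ∈ Hist r1.X r1.C n := by
        rw [h1.hist_eq le_rfl]
        exact hsub (Set.mem_insert _ _)
      obtain ⟨r2, h3, h4⟩ := exists_graft ht hw
      refine ⟨r2, h3.trans h1, ?_⟩
      rintro u (rfl | hu)
      · exact hQ _ _ _ hQw h4
      · exact hQ _ _ _ (h2 u hu) (h3.toPure.next' n u)
  exact key _ (r.finite_hist n) Subset.rfl

/-! ### Removing labels -/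

/-- The condition with fewer labels. -/
def Cond.sub (p : Cond Λ) (Y : Set ℕ) (hY : Y ⊆ p.X) (hinf : Y.Infinite) : Cond Λ where
  D := p.D
  s := p.s
  X := Y
  C := p.C
  cD := p.cD
  sD := p.sD
  CD := p.CD
  inf := hinf
  fin := p.fin
  big := fun α h N => by
    obtain ⟨x0, hx0⟩ := p.big α h N
    exact ⟨x0, fun x hx h1 => hx0 x (hY hx) h1⟩

/-- The next label can be chosen such that the sets with finitely many given indices are large. -/
theorem exists_advance (r : Cond Λ) (n : ℕ) (E : Finset Λ) (m : ℕ) :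
    ∃ r' : Cond Λ, ∃ x, PureN n r' r ∧ r'.D = r.D ∧ r'.C = r.C ∧ n ≤ x ∧ x ∈ r'.X ∧
      (∀ y ∈ r'.X, n ≤ y → x ≤ y) ∧ ∀ α ∈ E, α ∈ r.D → m ≤ (r'.C x α).card := by
  classical
  have h1 : ∀ α : Λ, ∃ x0, α ∈ r.D → ∀ x ∈ r.X, x0 ≤ x → m ≤ (r.C x α).card := by
    intro α
    by_cases h : α ∈ r.D
    · obtain ⟨x0, hx0⟩ := r.big α h m
      exact ⟨x0, fun _ => hx0⟩
    · exact ⟨0, fun h2 => absurd h2 h⟩
  choose f hf using h1
  obtain ⟨x, hx, hx1⟩ := r.inf.exists_gt (max n (E.sup f))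
  have hnx : n ≤ x := ((le_max_left _ _).trans hx1.le)
  have hinf : {y | y ∈ r.X ∧ (y < n ∨ x ≤ y)}.Infinite := by
    intro hfin
    refine r.inf ((hfin.union (Set.finite_lt_nat x)).subset ?_)
    intro y hy
    by_cases h : x ≤ y
    · exact Or.inl ⟨hy, Or.inr h⟩
    · exact Or.inr (not_le.1 h)
  refine ⟨r.sub {y | y ∈ r.X ∧ (y < n ∨ x ≤ y)} (fun y hy => hy.1) hinf, x, ?_, rfl, rfl, hnx,
    ⟨hx, Or.inr le_rfl⟩, ?_, ?_⟩
  · refine { D := ?_, s := ?_, X := ?_, C := ?_, keepX := ?_, keepC := ?_ }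
    · exact Subset.rfl
    · exact fun _ _ => rfl
    · exact fun y hy => hy.1
    · exact fun _ _ _ _ => ⟨Subset.rfl, id⟩
    · exact fun y hy hy' => ⟨hy', Or.inl hy⟩
    · exact fun _ _ _ => rfl
  · rintro y ⟨_, h2 | h2⟩ h3
    · exact absurd h3 (not_le.2 h2)
    · exact h2
  · intro α hα hαD
    exact hf α hαD x hx ((Finset.le_sup (f := f) hα).trans ((le_max_right _ _).trans hx1.le))

/-! ### Exhausting a countable set -/

theorem exists_exhaust (D : Set Λ) (hD : D.Countable) :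
    ∃ f : ℕ → Finset Λ, (∀ i, ∀ α ∈ f i, α ∈ D) ∧ (∀ i j, i ≤ j → f i ⊆ f j) ∧
      ∀ α ∈ D, ∃ i0, ∀ i, i0 ≤ i → α ∈ f i := by
  classical
  rcases D.eq_empty_or_nonempty with h | h
  · subst h
    exact ⟨fun _ => ∅, fun i α hα => by simp at hα, fun _ _ _ => Finset.Subset.refl _,
      fun α hα => absurd hα (Set.notMem_empty α)⟩
  · obtain ⟨g, hg⟩ := hD.exists_eq_range h
    refine ⟨fun i => (Finset.range (i + 1)).image g, ?_, ?_, ?_⟩
    · intro i α hα
      obtain ⟨j, _, rfl⟩ := Finset.mem_image.1 hα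
      rw [hg]
      exact Set.mem_range_self j
    · intro i j hij
      refine Finset.image_subset_image ?_
      intro k hk
      rw [Finset.mem_range] at hk ⊢
      omega
    · intro α hα
      rw [hg] at hα
      obtain ⟨j, rfl⟩ := hα
      exact ⟨j, fun i hi => Finset.mem_image_of_mem g (Finset.mem_range.2 (Nat.lt_succ_of_le hi))⟩

/-! ### The fusion lemma -/

section

variable (r : ℕ → Cond Λ) (n x : ℕ → ℕ)

structure FSeq (G : ℕ → ℕ → Finset Λ) : Prop where
  pure : ∀ i, PureN (n i) (r (i + 1)) (r i)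
  le : ∀ i, n i ≤ x i
  succ : ∀ i, n (i + 1) = x i + 1
  mem : ∀ i, x i ∈ (r (i + 1)).X
  first : ∀ i, ∀ y ∈ (r (i + 1)).X, n i ≤ y → x i ≤ y
  big : ∀ i, ∀ α ∈ G i i, α ∈ (r i).D → i ≤ ((r (i + 1)).C (x i) α).card
  ex : ∀ i, ∀ α ∈ (r i).D, ∃ k0, ∀ k, k0 ≤ k → α ∈ G i k
  mono : ∀ i k, G i k ⊆ G (i + 1) k

variable {r n x} {G : ℕ → ℕ → Finset Λ}

theorem FSeq.n_lt (h : FSeq r n x G) (i : ℕ) : n i < n (i + 1) := by
  rw [h.succ]
  exact Nat.lt_succ_of_le (h.le i)

theorem FSeq.n_mono (h : FSeq r n x G) : StrictMono n := strictMono_nat_of_lt_succ h.n_lt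

theorem FSeq.pureN (h : FSeq r n x G) {i j : ℕ} (hij : i ≤ j) : PureN (n i) (r j) (r i) := by
  induction j, hij using Nat.le_induction with
  | base => exact PureN.refl _ _
  | succ j hij ih => exact ((h.pure j).mono (h.n_mono.monotone hij)).trans ih

theorem FSeq.G_mono (h : FSeq r n x G) {i j : ℕ} (hij : i ≤ j) (k : ℕ) : G i k ⊆ G j k := by
  induction j, hij using Nat.le_induction with
  | base => exact Finset.Subset.refl _
  | succ j hij ih => exact ih.trans (h.mono j k)

open Classical in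
/-- The limit of a fusion sequence. -/
noncomputable def FSeq.lim (h : FSeq r n x G) : Cond Λ where
  D := ⋃ i, (r i).D
  s := fun α => if h : ∃ i, α ∈ (r i).D then (r (Nat.find h)).s α else ∅
  X := {y | y ∈ (r (y + 1)).X}
  C := fun y => (r (y + 1)).C y
  cD := Set.countable_iUnion fun i => (r i).cD
  sD := fun α hα => by
    rw [dif_neg]
    rintro ⟨i, hi⟩
    exact hα (mem_iUnion.2 ⟨i, hi⟩)
  CD := fun y α hα => (r (y + 1)).CD y α fun h1 => hα (mem_iUnion.2 ⟨y + 1, h1⟩)
  inf := by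
    have hx : StrictMono x := strictMono_nat_of_lt_succ fun i => by
      have := h.le (i + 1)
      rw [h.succ] at this
      omega
    refine Set.infinite_of_injective_forall_mem hx.injective fun i => ?_
    show x i ∈ (r (x i + 1)).X
    have h1 : i ≤ x i := hx.id_le i
    exact (h.pureN (Nat.succ_le_succ h1)).keepX (x i) (by rw [h.succ]; omega) (h.mem i)
  fin := fun y => (r (y + 1)).fin y
  big := fun α hα N => by
    obtain ⟨j, hj⟩ := mem_iUnion.1 hα
    obtain ⟨k0, hk0⟩ := h.ex j α hj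
    have hnid : ∀ i, i ≤ n i := h.n_mono.id_le
    refine ⟨n (max N (max j k0)), fun y hy hy1 => ?_⟩
    -- locate `y`
    obtain ⟨i, hi1, hi2⟩ : ∃ i, n i ≤ y ∧ y < n (i + 1) := by
      have h0 : ∃ k, y < n k := ⟨y + 1, hnid (y + 1)⟩
      have h1 := Nat.find_spec h0
      have h2 : Nat.find h0 ≠ 0 := by
        intro h3
        rw [h3] at h1
        have : n 0 ≤ n (max N (max j k0)) := h.n_mono.monotone (Nat.zero_le _)
        omega
      obtain ⟨i, hi⟩ := Nat.exists_eq_succ_of_ne_zero h2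
      refine ⟨i, ?_, ?_⟩
      · have := Nat.find_min h0 (m := i) (by omega)
        omega
      · rw [hi] at h1
        exact h1
    have hbig : max N (max j k0) ≤ i := by
      by_contra hcon
      have h3 : i + 1 ≤ max N (max j k0) := by omega
      have := h.n_mono.monotone h3
      omega
    have hyi : i + 1 ≤ y + 1 := by
      have := hnid i
      omega
    have hyX : y ∈ (r (i + 1)).X := (h.pureN hyi).X hy
    have hyx : y = x i := by
      have h3 := h.first i y hyX hi1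
      have h4 := h.succ i
      omega
    have h5 : (r (y + 1)).C y = (r (i + 1)).C y := (h.pureN hyi).keepC y hi2 hyX
    have h6 : α ∈ G i i := h.G_mono (show j ≤ i by omega) i (hk0 i (by omega))
    have h7 : α ∈ (r i).D := (h.pureN (show j ≤ i by omega)).D hj
    have h8 := h.big i α h6 h7
    show N ≤ ((r (y + 1)).C y α).card
    rw [h5, hyx]
    omega

theorem FSeq.lim_pure (h : FSeq r n x G) (i : ℕ) : PureN (n i) h.lim (r i) := by
  classical
  have hnid : ∀ i, i ≤ n i := h.n_mono.id_le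
  have hsub : ∀ j k, j ≤ k → (r j).D ⊆ (r k).D := fun j k hjk => (h.pureN hjk).D
  refine { D := ?_, s := ?_, X := ?_, C := ?_, keepX := ?_, keepC := ?_ }
  · exact subset_iUnion (fun i => (r i).D) i
  · intro α hα
    have h1 : ∃ i, α ∈ (r i).D := ⟨i, hα⟩
    have h2 : h.lim.s α = (r (Nat.find h1)).s α := dif_pos h1
    have h3 : Nat.find h1 ≤ i := Nat.find_min' h1 hα
    rw [h2]
    exact ((h.pureN h3).s α (Nat.find_spec h1)).symm
  · intro y hy
    have hy' : y ∈ (r (y + 1)).X := hy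
    rcases le_total i (y + 1) with h1 | h1
    · exact (h.pureN h1).X hy'
    · exact (h.pureN h1).keepX y (lt_of_lt_of_le (Nat.lt_succ_self y) (hnid _)) hy'
  · intro y hy α hα
    have hy' : y ∈ (r (y + 1)).X := hy
    show (r (y + 1)).C y α ⊆ (r i).C y α ∧ (2 ≤ ((r i).C y α).card →
      2 ≤ ((r (y + 1)).C y α).card)
    rcases le_total i (y + 1) with h1 | h1
    · exact (h.pureN h1).C y hy' α hα
    · rw [(h.pureN h1).keepC y (lt_of_lt_of_le (Nat.lt_succ_self y) (hnid _)) hy']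
      exact ⟨Subset.rfl, id⟩
  · intro y hy hy'
    show y ∈ (r (y + 1)).X
    rcases le_total i (y + 1) with h1 | h1
    · exact (h.pureN h1).keepX y hy hy'
    · exact (h.pureN h1).X hy'
  · intro y hy hy'
    show (r (y + 1)).C y = (r i).C y
    rcases le_total i (y + 1) with h1 | h1
    · exact (h.pureN h1).keepC y hy hy'
    · exact ((h.pureN h1).keepC y (lt_of_lt_of_le (Nat.lt_succ_self y) (hnid _))
        ((h.pureN h1).X hy')).symm

end

/-- The fusion lemma. -/
theorem fusion (Φ : Cond Λ → Prop) (hΦ : ∀ r r', Φ r → Pure r' r → Φ r')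
    (Ψ : Cond Λ → ℕ → ℕ → Prop)
    (hΨ : ∀ r r' n x, n ≤ x → Ψ r n x → PureN (x + 1) r' r → Ψ r' n x)
    (step : ∀ r n (E : Finset Λ) (m : ℕ), Φ r → ∃ r' : Cond Λ, ∃ x, PureN n r' r ∧ n ≤ x ∧
      x ∈ r'.X ∧ (∀ y ∈ r'.X, n ≤ y → x ≤ y) ∧ (∀ α ∈ E, α ∈ r.D → m ≤ (r'.C x α).card) ∧
      Ψ r' n x)
    (p : Cond Λ) (hp : Φ p) (n0 : ℕ) :
    ∃ q : Cond Λ, ∃ n x : ℕ → ℕ, PureN n0 q p ∧ n 0 = n0 ∧ (∀ i, n i ≤ x i) ∧
      (∀ i, n (i + 1) = x i + 1) ∧ (∀ i, x i ∈ q.X) ∧ (∀ i, ∀ y ∈ q.X, n i ≤ y → x i ≤ y) ∧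
      ∀ i, Ψ q (n i) (x i) := by
  classical
  choose! R hR using step
  choose! Y hY1 hY2 hY3 hY4 hY5 hY6 using hR
  have hex : ∀ r : Cond Λ, ∃ f : ℕ → Finset Λ, ∀ α ∈ r.D, ∃ i0, ∀ i, i0 ≤ i → α ∈ f i :=
    fun r => by
      obtain ⟨f, _, _, h⟩ := exists_exhaust r.D r.cD
      exact ⟨f, h⟩
  choose F hF using hex
  -- the sequence of states
  let S : ℕ → Cond Λ × ℕ × (ℕ → Finset Λ) := fun i => Nat.rec (p, n0, F p) (fun i st =>
    let r' := R st.1 st.2.1 (st.2.2 i) i
    (r', Y st.1 st.2.1 (st.2.2 i) i + 1, fun k => st.2.2 k ∪ F r' k)) i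
  have hS0 : S 0 = (p, n0, F p) := rfl
  have hS1 : ∀ i, S (i + 1) = (R (S i).1 (S i).2.1 ((S i).2.2 i) i,
    Y (S i).1 (S i).2.1 ((S i).2.2 i) i + 1,
    fun k => (S i).2.2 k ∪ F (R (S i).1 (S i).2.1 ((S i).2.2 i) i) k) := fun i => rfl
  let r : ℕ → Cond Λ := fun i => (S i).1
  let n : ℕ → ℕ := fun i => (S i).2.1
  let G : ℕ → ℕ → Finset Λ := fun i => (S i).2.2
  let x : ℕ → ℕ := fun i => Y (r i) (n i) (G i i) i
  have hr : ∀ i, r (i + 1) = R (r i) (n i) (G i i) i := fun i => rfl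
  have hΦr : ∀ i, Φ (r i) := by
    intro i
    induction i with
    | zero => exact hp
    | succ i ih =>
      rw [hr]
      exact hΦ _ _ ih (hY1 (r i) (n i) (G i i) i ih).toPure
  have hseq : FSeq r n x G := by
    refine ⟨fun i => ?_, fun i => ?_, fun i => rfl, fun i => ?_, fun i => ?_, fun i => ?_,
      fun i => ?_, fun i k => ?_⟩
    · rw [hr]
      exact hY1 (r i) (n i) (G i i) i (hΦr i)
    · exact hY2 (r i) (n i) (G i i) i (hΦr i)
    · rw [hr]
      exact hY3 (r i) (n i) (G i i) i (hΦr i)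
    · rw [hr]
      exact hY4 (r i) (n i) (G i i) i (hΦr i)
    · rw [hr]
      exact hY5 (r i) (n i) (G i i) i (hΦr i)
    · intro α hα
      cases i with
      | zero => exact hF p α hα
      | succ i =>
        obtain ⟨k0, hk0⟩ := hF (r (i + 1)) α hα
        exact ⟨k0, fun k hk => Finset.mem_union_right _ (hk0 k hk)⟩
    · exact Finset.subset_union_left
  refine ⟨hseq.lim, n, x, hseq.lim_pure 0, rfl, hseq.le, hseq.succ, ?_, ?_, ?_⟩
  · intro i
    refine (hseq.lim_pure (i + 1)).keepX (x i) ?_ (hseq.mem i)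
    rw [hseq.succ]
    exact Nat.lt_succ_self _
  · intro i y hy hny
    exact hseq.first i y ((hseq.lim_pure (i + 1)).X hy) hny
  · intro i
    have h1 : Ψ (r (i + 1)) (n i) (x i) := by
      rw [hr]
      exact hY6 (r i) (n i) (G i i) i (hΦr i)
    refine hΨ _ _ _ _ (hseq.le i) h1 ?_
    have h2 := hseq.lim_pure (i + 1)
    rw [hseq.succ] at h2
    exact h2

end Pool.Agent.N646.MC
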