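import Pool.Agent.N646.MC.Decide
import Pool.Agent.R593.Rnd.Basic

/-!
# Names for bounded functions
-/

set_option autoImplicit false

namespace Pool.Agent.N646.MC

open Set Pool.Agent.TH773.PSet Pool.Agent.R593.Rnd

variable {Λ : Type}

/-! ### Counting histories -/

theorem ncard_pick {B : Λ → Finset ℕ} {E : Finset Λ} {m : ℕ} (hm : 2 ≤ m)
    (hE : ∀ α ∈ E, (B α).card = m) (hE' : ∀ α ∉ E, (B α).card ≤ 2) :
    {e | Pick B e}.ncard ≤ (m * m) ^ E.card := by
  classical
  let T : Type _ := (α : E) → {z : ℕ × ℕ // z ∈ B α ×ˢ B α}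
  have h1 : ∀ e : {e | Pick B e}, ∀ α : E, ∃ z : {z : ℕ × ℕ // z ∈ B α ×ˢ B α},
      e.1 α = {z.1} := by
    intro e α
    obtain ⟨a, ha, b, hb, _, h2⟩ := e.2.1 α (by rw [hE α α.2]; exact hm)
    exact ⟨⟨(a, b), Finset.mem_product.2 ⟨ha, hb⟩⟩, h2⟩
  choose F hF using h1
  have hinj : Function.Injective (fun e : {e | Pick B e} => (F e : T)) := by
    intro e e' hee
    apply Subtype.ext
    funext α
    by_cases hα : α ∈ E
    · have h2 := hF e ⟨α, hα⟩
      have h3 := hF e' ⟨α, hα⟩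
      have h4 : F e ⟨α, hα⟩ = F e' ⟨α, hα⟩ := congrFun hee ⟨α, hα⟩
      show e.1 α = e'.1 α
      rw [h4] at h2
      exact h2.trans h3.symm
    · by_cases h2 : 2 ≤ (B α).card
      · obtain ⟨a, ha, b, hb, hab, h3⟩ := e.2.1 α h2
        obtain ⟨a', ha', b', hb', hab', h3'⟩ := e'.2.1 α h2
        obtain ⟨h4, h5⟩ := pair_unique (hE' α hα) ha hb ha' hb' hab hab'
        rw [h3, h3', h4, h5]
      · rw [e.2.2 α (not_le.1 h2), e'.2.2 α (not_le.1 h2)]
  have h2 : Nat.card {e | Pick B e} ≤ Nat.card T := Nat.card_le_card_of_injective _ hinj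
  have h3 : Nat.card T = (m * m) ^ E.card := by
    rw [Nat.card_pi]
    have h4 : ∀ α : E, Nat.card {z : ℕ × ℕ // z ∈ B α ×ˢ B α} = m * m := by
      intro α
      rw [Nat.card_eq_fintype_card, Fintype.card_coe, Finset.card_product, hE α α.2]
    simp only [h4, Finset.prod_const, Finset.card_univ, Fintype.card_coe]
  rw [← h3]
  exact h2

/-- The number of histories plus the number of labels. -/
noncomputable def cnt (r : Cond Λ) (n : ℕ) : ℕ :=
  (Hist r.X r.C n).ncard + {y | y ∈ r.X ∧ y < n}.ncard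

theorem PureN.cnt_eq {n : ℕ} {q p : Cond Λ} (h : PureN n q p) {m : ℕ} (hm : m ≤ n) :
    cnt q m = cnt p m := by
  unfold cnt
  rw [h.hist_eq hm]
  congr 2
  ext y
  exact ⟨fun hy => ⟨h.X hy.1, hy.2⟩, fun hy => ⟨h.keepX y (lt_of_lt_of_le hy.2 hm) hy.1, hy.2⟩⟩

theorem ncard_labels {r : Cond Λ} {n x : ℕ} (hnx : n ≤ x) (hx : x ∈ r.X)
    (h : ∀ y ∈ r.X, n ≤ y → x ≤ y) :
    {y | y ∈ r.X ∧ y < x + 1}.ncard = {y | y ∈ r.X ∧ y < n}.ncard + 1 := by
  have h1 : {y | y ∈ r.X ∧ y < x + 1} = insert x {y | y ∈ r.X ∧ y < n} := by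
    ext y
    constructor
    · rintro ⟨hy, hyx⟩
      by_cases h2 : n ≤ y
      · exact Or.inl (le_antisymm (Nat.le_of_lt_succ hyx) (h y hy h2))
      · exact Or.inr ⟨hy, not_le.1 h2⟩
    · rintro (rfl | ⟨hy, hyn⟩)
      · exact ⟨hx, Nat.lt_succ_self _⟩
      · exact ⟨hy, by omega⟩
  rw [h1, Set.ncard_insert_of_notMem (fun h2 => absurd h2.2 (not_lt.2 hnx))
    ((Set.finite_lt_nat n).subset fun y hy => hy.2)]

theorem cnt_lt {r : Cond Λ} {n x : ℕ} (hnx : n ≤ x) (hx : x ∈ r.X)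
    (h : ∀ y ∈ r.X, n ≤ y → x ≤ y) : cnt r n < cnt r (x + 1) := by
  unfold cnt
  rw [ncard_labels hnx hx h]
  have := Set.ncard_le_ncard (hist_mono (show n ≤ x + 1 by omega))
    (r.finite_hist (x + 1))
  omega

theorem cnt_le {r : Cond Λ} {n x : ℕ} (hnx : n ≤ x) (hx : x ∈ r.X)
    (h : ∀ y ∈ r.X, n ≤ y → x ≤ y) {M : ℕ} (hM : {e | Pick (r.C x) e}.ncard ≤ M) :
    cnt r (x + 1) ≤ (Hist r.X r.C n).ncard * (1 + M) + ({y | y ∈ r.X ∧ y < n}.ncard + 1) := by
  unfold cnt
  rw [ncard_labels hnx hx h]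
  refine Nat.add_le_add_right ?_ _
  have hgap : Hist r.X r.C x = Hist r.X r.C n := hist_gap hnx h
  have h1 : Hist r.X r.C (x + 1) ⊆ Hist r.X r.C n ∪
      (fun z : (Λ → Finset (ℕ × ℕ)) × (Λ → Finset (ℕ × ℕ)) => z.1 ⊔ z.2) ''
        ((Hist r.X r.C n) ×ˢ {e | Pick (r.C x) e}) := by
    rintro u (hu | ⟨_, t, ht, e, he, rfl⟩)
    · rw [hgap] at hu
      exact Or.inl hu
    · rw [hgap] at ht
      exact Or.inr ⟨(t, e), ⟨ht, he⟩, rfl⟩
  have hf1 := r.finite_hist n
  have hf2 : ((Hist r.X r.C n) ×ˢ {e | Pick (r.C x) e}).Finite :=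
    hf1.prod (finite_pick (r.fin x))
  calc (Hist r.X r.C (x + 1)).ncard ≤ _ := Set.ncard_le_ncard h1 (hf1.union (hf2.image _))
    _ ≤ (Hist r.X r.C n).ncard + _ := Set.ncard_union_le _ _
    _ ≤ (Hist r.X r.C n).ncard + (Hist r.X r.C n).ncard * M := by
        refine Nat.add_le_add_left ((Set.ncard_image_le hf2).trans ?_) _
        rw [Set.ncard_prod]
        exact Nat.mul_le_mul_left _ hM
    _ = (Hist r.X r.C n).ncard * (1 + M) := by ring

/-- Shrinking one block. -/
theorem exists_shrink (r : Cond Λ) {n x : ℕ} (hnx : n ≤ x) (hx : x ∈ r.X) (B : Λ → Finset ℕ)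
    (hB : ∀ α, B α ⊆ r.C x α) (hB' : ∀ α, 2 ≤ (r.C x α).card → 2 ≤ (B α).card) :
    ∃ r' : Cond Λ, PureN n r' r ∧ r'.D = r.D ∧ r'.X = r.X ∧ r'.C x = B ∧
      ∀ y, y ≠ x → r'.C y = r.C y := by
  classical
  have hsub : ∀ y α, Function.update r.C x B y α ⊆ r.C y α := by
    intro y α
    by_cases h : y = x
    · subst h
      rw [Function.update_self]
      exact hB α
    · rw [Function.update_of_ne h]
  let r' : Cond Λ :=
    { D := r.D
      s := r.s
      X := r.X
      C := Function.update r.C x B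
      cD := r.cD
      sD := r.sD
      CD := fun z α hα => Finset.subset_empty.1 (by
        have := hsub z α
        rwa [r.CD z α hα] at this)
      inf := r.inf
      fin := fun z => (r.fin z).subset fun α hα =>
        le_trans (show 2 ≤ (Function.update r.C x B z α).card from hα)
          (Finset.card_le_card (hsub z α))
      big := fun α hα N => by
        obtain ⟨x0, hx0⟩ := r.big α hα N
        refine ⟨max x0 (x + 1), fun z hz hz1 => ?_⟩
        rw [Function.update_of_ne (by omega)]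
        exact hx0 z hz (by omega) }
  refine ⟨r', ?_, rfl, rfl, Function.update_self _ _ _, fun y hy => Function.update_of_ne hy _ _⟩
  refine { D := Subset.rfl, s := ?_, X := ?_, C := ?_, keepX := ?_, keepC := ?_ }
  · exact fun _ _ => rfl
  · exact fun _ h => h
  · intro y _ α _
    refine ⟨hsub y α, ?_⟩
    show 2 ≤ (r.C y α).card → 2 ≤ (Function.update r.C x B y α).card
    by_cases h : y = x
    · subst h
      rw [Function.update_self]
      exact hB' α
    · rw [Function.update_of_ne h]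
      exact id
  · exact fun _ _ h => h
  · intro y hy _
    exact Function.update_of_ne (by omega) _ _

/-- The next label with a block with few picks. -/
theorem exists_advance_thin (r : Cond Λ) (n : ℕ) (E : Finset Λ) (m : ℕ) (hm : 2 ≤ m) :
    ∃ r' : Cond Λ, ∃ x, PureN n r' r ∧ r'.D = r.D ∧ n ≤ x ∧ x ∈ r'.X ∧
      (∀ y ∈ r'.X, n ≤ y → x ≤ y) ∧ (∀ α ∈ E, α ∈ r.D → m ≤ (r'.C x α).card) ∧
      {e | Pick (r'.C x) e}.ncard ≤ (m * m) ^ E.card := by
  classical
  let E' : Finset Λ := E.filter (· ∈ r.D)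
  obtain ⟨N, hN⟩ := block_ramsey E' Unit m hm
  obtain ⟨r1, x, h1, h2, h2', h3, h4, h5, h6⟩ := exists_advance r n E' N
  obtain ⟨B, hB1, hB2, hB3, hB4, _⟩ := hN (r1.C x) (fun α hα => h6 α hα
    (Finset.mem_filter.1 hα).2) (fun _ => ())
  obtain ⟨r2, h7, h8, h9, h10, _⟩ := exists_shrink r1 h3 h4 B hB1 hB2
  refine ⟨r2, x, h7.trans h1, h8.trans h2, h3, ?_, ?_, ?_, ?_⟩
  · rw [h9]
    exact h4
  · intro y hy hny
    rw [h9] at hy
    exact h5 y hy hny
  · intro α hα hαD
    rw [h10, hB3 α (Finset.mem_filter.2 ⟨hα, hαD⟩)]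
  · rw [h10]
    refine (ncard_pick hm hB3 hB4).trans ?_
    exact Nat.pow_le_pow_right (by positivity) (Finset.card_filter_le _ _)

/-! ### Bounded names -/

/-- The possible decisions about the value of the function named by `h` at `j`: a number at most
`j`, or no such number. -/
def decVal (h : ℕ → ℕ → Set (Cond Λ)) (j : ℕ) : Option (Fin (j + 1)) → Set (Cond Λ)
  | some v => meets (h j v)
  | none => fall fun v : Fin (j + 1) => fnot (meets (h j v))

theorem reg_decVal (h : ℕ → ℕ → Set (Cond Λ)) (j : ℕ) (v : Option (Fin (j + 1))) :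
    Reg (decVal h j v) := by
  cases v with
  | none => exact reg_fall fun _ => reg_fnot (reg_meets _).1
  | some v => exact reg_meets _

theorem dense_decVal (h : ℕ → ℕ → Set (Cond Λ)) (j : ℕ) (q : Cond Λ) :
    ∃ r ≤ q, ∃ v, r ∈ decVal h j v := by
  by_cases h1 : ∃ r ≤ q, ∃ v : Fin (j + 1), r ∈ meets (h j v)
  · obtain ⟨r, hr, v, hv⟩ := h1
    exact ⟨r, hr, some v, hv⟩
  · push Not at h1
    exact ⟨q, le_rfl, none, fun v r hr => h1 r hr v⟩

theorem exists_dec_lt (h : ℕ → ℕ → Set (Cond Λ)) (n J : ℕ) (r : Cond Λ) :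
    ∃ r', PureN n r' r ∧ ∀ t ∈ Hist r.X r.C n, ∀ j < J, ∃ v, r'.next n t ∈ decVal h j v := by
  induction J with
  | zero => exact ⟨r, PureN.refl _ _, fun t _ j hj => absurd hj (Nat.not_lt_zero j)⟩
  | succ J ih =>
    obtain ⟨r1, h1, h2⟩ := ih
    obtain ⟨r2, h3, h4⟩ := pure_decide_all (reg_decVal h J) (p := r1) n
      fun q _ => dense_decVal h J q
    refine ⟨r2, h3.trans h1, fun t ht j hj => ?_⟩
    rcases Nat.lt_succ_iff_lt_or_eq.1 hj with hj | rfl
    · obtain ⟨v, hv⟩ := h2 t ht j hj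
      exact ⟨v, (reg_decVal h j v).1 _ hv _ (h3.toPure.next' n t).le⟩
    · exact h4 t (by rw [h1.hist_eq le_rfl]; exact ht)

theorem laver (h : ℕ → ℕ → Set (Cond Λ)) (p : Cond Λ) (hp : p ∈ IsFun h) :
    ∃ q, Pure q p ∧ ∃ y : ℕ → ℕ, (∀ j, y j ≤ j) ∧ ∃ m, ∀ j, m ≤ j →
      q ∈ fnot (meets (h j (y j))) := by
  classical
  obtain ⟨q, n, x, hq, hn0, h1, h2, h3, h4, h5⟩ := fusion (fun _ => True)
    (fun _ _ _ _ => trivial)
    (fun r n x => ∀ t ∈ Hist r.X r.C n, ∀ j < cnt r (x + 1), ∃ v, r.next n t ∈ decVal h j v)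
    (fun r r' n x hnx hr hr' t ht j hj => by
      rw [hr'.hist_eq (hnx.trans (Nat.le_succ x))] at ht
      rw [hr'.cnt_eq le_rfl] at hj
      obtain ⟨v, hv⟩ := hr t ht j hj
      exact ⟨v, (reg_decVal h j v).1 _ hv _ (hr'.toPure.next' n t).le⟩)
    (fun r n E m _ => by
      let M : ℕ := (max m 2 * max m 2) ^ E.card
      let J : ℕ := (Hist r.X r.C n).ncard * (1 + M) + ({y | y ∈ r.X ∧ y < n}.ncard + 1)
      obtain ⟨r1, h1, h2⟩ := exists_dec_lt h n J r
      obtain ⟨r2, x, h3, _, h5, h6, h7, h8, h9⟩ := exists_advance_thin r1 n E (max m 2)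
        (le_max_right _ _)
      have h10 := h3.trans h1
      refine ⟨r2, x, h10, h5, h6, h7, fun α hα hαD => (le_max_left _ _).trans
        (h8 α hα (h1.D hαD)), ?_⟩
      intro t ht j hj
      have h11 := cnt_le h5 h6 h7 h9
      have h12 : {y | y ∈ r2.X ∧ y < n} = {y | y ∈ r.X ∧ y < n} := by
        ext y
        exact ⟨fun hy => ⟨h10.X hy.1, hy.2⟩, fun hy => ⟨h10.keepX y hy.2 hy.1, hy.2⟩⟩
      rw [h10.hist_eq le_rfl, h12] at h11
      rw [h10.hist_eq le_rfl] at ht
      obtain ⟨v, hv⟩ := h2 t ht j (lt_of_lt_of_le hj h11)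
      exact ⟨v, (reg_decVal h j v).1 _ hv _ (h3.toPure.next' n t).le⟩)
    p trivial 0
  have hH : StrictMono fun i => cnt q (n i) := strictMono_nat_of_lt_succ fun i => by
    rw [h2]
    exact cnt_lt (h1 i) (h3 i) (h4 i)
  -- the values to be avoided
  have key : ∀ j, ∃ v ≤ j, cnt q (n 0) ≤ j → q ∈ fnot (meets (h j v)) := by
    intro j
    by_cases hj : cnt q (n 0) ≤ j
    · obtain ⟨i, hi1, hi2⟩ : ∃ i, cnt q (n i) ≤ j ∧ j < cnt q (n (i + 1)) := by
        have h6 : ∃ k, j < cnt q (n k) := ⟨j + 1, lt_of_lt_of_le (Nat.lt_succ_self j) (hH.id_le _)⟩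
        have h7 := Nat.find_spec h6
        have h8 : Nat.find h6 ≠ 0 := by
          intro h9
          rw [h9] at h7
          omega
        obtain ⟨i, hi⟩ := Nat.exists_eq_succ_of_ne_zero h8
        refine ⟨i, ?_, ?_⟩
        · have := Nat.find_min h6 (m := i) (by omega)
          omega
        · rw [hi] at h7
          exact h7
      rw [h2] at hi2
      have hfin := q.finite_hist (n i)
      have : Fintype (Hist q.X q.C (n i)) := hfin.fintype
      choose! val hval using fun t (ht : t ∈ Hist q.X q.C (n i)) => h5 i t ht j hi2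
      let S : Finset (Option (Fin (j + 1))) := hfin.toFinset.image val
      have hS : S.card ≤ j := by
        refine Finset.card_image_le.trans ?_
        rw [← Set.ncard_eq_toFinset_card _ hfin]
        exact (Nat.le_add_right _ _).trans hi1
      obtain ⟨v, hv⟩ : ∃ v : Fin (j + 1), some v ∉ S := by
        by_contra hcon
        push Not at hcon
        have h6 : (Finset.univ.image (some : Fin (j + 1) → Option (Fin (j + 1)))) ⊆ S := by
          intro z hz
          obtain ⟨v, _, rfl⟩ := Finset.mem_image.1 hz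
          exact hcon v
        have h7 := Finset.card_le_card h6
        rw [Finset.card_image_of_injective _ (Option.some_injective _), Finset.card_univ,
          Fintype.card_fin] at h7
        omega
      refine ⟨v, Nat.le_of_lt_succ v.2, fun _ r hr hr' => ?_⟩
      obtain ⟨r', hr1, t, ht, hr2⟩ := exists_le_next hr (n i)
      have h6 := (reg_decVal h j (val t)).1 _ (hval t ht) r' hr2
      have h7 : r' ∈ meets (h j v) := (reg_meets _).1 _ hr' r' hr1
      have h8 : val t ≠ some v := by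
        intro h9
        refine hv (Finset.mem_image.2 ⟨t, hfin.mem_toFinset.2 ht, h9⟩)
      have hr'p : r' ≤ p := hr1.trans (hr.trans hq.toPure.le)
      rcases hvt : val t with _ | w
      · rw [hvt] at h6
        exact h6 v r' le_rfl h7
      · rw [hvt] at h6 h8
        have h9 : (w : ℕ) ≠ v := fun h10 => h8 (by rw [Fin.ext h10])
        exact hp.2 j w v h9 r' hr'p ⟨h6, h7⟩
    · exact ⟨0, Nat.zero_le _, fun h => absurd h hj⟩
  choose y hy1 hy2 using key
  exact ⟨q, hq.toPure, y, hy1, cnt q (n 0), hy2⟩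

end Pool.Agent.N646.MC
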