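import Mathlib
import Pool.Agent.R593.Eq.Zfc
import Pool.Agent.N646.MC.Sent

/-!
# What the sentence says about the cardinal invariants
-/

set_option autoImplicit false

namespace Pool.Agent.N646.MC

open Cardinal MeasureTheory Set Filter Topology Pool.Agent.TH773.PSet Pool.Agent.R593.Eq

/-! ### Sets of reals with homogeneous pairs -/

theorem lam_pairs (a b : ℕ → ℕ) (h1 : ∀ i, a i < b i) (h2 : ∀ i, b i < a (i + 1)) (m n : ℕ) :
    lam {x | ∀ i < n, x (a (m + i)) = x (b (m + i))} ≤ (2 : ENNReal)⁻¹ ^ n := by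
  classical
  have hab : ∀ i j, i < j → b i < a j := by
    intro i j hij
    induction j, hij using Nat.le_induction with
    | base => exact h2 i
    | succ j _ ih => exact ih.trans ((h1 j).trans (h2 j))
  have hainj : ∀ i j, i ≠ j → a i ≠ a j := by
    intro i j hij
    rcases lt_or_gt_of_ne hij with h | h
    · exact ((h1 i).trans (hab i j h)).ne
    · exact ((h1 j).trans (hab j i h)).ne'
  have hbinj : ∀ i j, i ≠ j → b i ≠ b j := by
    intro i j hij
    rcases lt_or_gt_of_ne hij with h | h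
    · exact ((hab i j h).trans (h1 j)).ne
    · exact ((hab j i h).trans (h1 i)).ne'
  have habne : ∀ i j, a i ≠ b j := by
    intro i j
    rcases lt_trichotomy i j with h | h | h
    · exact (((h1 i).trans (hab i j h)).trans (h1 j)).ne
    · rw [h]
      exact (h1 j).ne
    · exact (hab j i h).ne'
  -- the cylinder of a pattern
  let S : Finset ℕ := (Finset.range n).image (fun i => a (m + i)) ∪
    (Finset.range n).image fun i => b (m + i)
  have hS : S.card = n + n := by
    have hd : Disjoint ((Finset.range n).image (fun i => a (m + i)))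
        ((Finset.range n).image fun i => b (m + i)) := by
      rw [Finset.disjoint_left]
      intro x hx hx'
      obtain ⟨i, _, hi⟩ := Finset.mem_image.1 hx
      obtain ⟨j, _, hj⟩ := Finset.mem_image.1 hx'
      exact habne (m + i) (m + j) (hi.trans hj.symm)
    rw [Finset.card_union_of_disjoint hd, Finset.card_image_of_injective,
      Finset.card_image_of_injective, Finset.card_range]
    · intro i j hij
      by_contra hne
      exact hbinj (m + i) (m + j) (by omega) hij
    · intro i j hij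
      by_contra hne
      exact hainj (m + i) (m + j) (by omega) hij
  have hcyl : ∀ w : ℕ → Bool, lam (Set.pi (S : Finset ℕ) fun j => {w j}) =
      (2 : ENNReal)⁻¹ ^ (n + n) := by
    intro w
    rw [lam, Measure.infinitePi_pi _ fun _ _ => measurableSet_singleton _]
    simp only [coin_singleton, Finset.prod_const, hS]
  -- the pattern given by `v`
  let w : (Fin n → Bool) → ℕ → Bool := fun v j =>
    if h : ∃ i : Fin n, a (m + i) = j ∨ b (m + i) = j then v h.choose else false
  have hw : ∀ (v : Fin n → Bool) (i : Fin n), w v (a (m + i)) = v i ∧ w v (b (m + i)) = v i := by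
    intro v i
    constructor
    · have h : ∃ i' : Fin n, a (m + i') = a (m + i) ∨ b (m + i') = a (m + i) := ⟨i, Or.inl rfl⟩
      have h3 : w v (a (m + i)) = v h.choose := dif_pos h
      rw [h3]
      congr 1
      rcases h.choose_spec with h4 | h4
      · by_contra hne
        refine hainj _ _ ?_ h4
        intro h5
        exact hne (Fin.ext (by omega))
      · exact absurd h4.symm (habne _ _)
    · have h : ∃ i' : Fin n, a (m + i') = b (m + i) ∨ b (m + i') = b (m + i) := ⟨i, Or.inr rfl⟩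
      have h3 : w v (b (m + i)) = v h.choose := dif_pos h
      rw [h3]
      congr 1
      rcases h.choose_spec with h4 | h4
      · exact absurd h4 (habne _ _)
      · by_contra hne
        refine hbinj _ _ ?_ h4
        intro h5
        exact hne (Fin.ext (by omega))
  have hsub : {x | ∀ i < n, x (a (m + i)) = x (b (m + i))} ⊆
      ⋃ v ∈ (Finset.univ : Finset (Fin n → Bool)), Set.pi (S : Finset ℕ) fun j => {w v j} := by
    intro x hx
    refine mem_iUnion₂.2 ⟨fun i => x (a (m + i)), Finset.mem_univ _, ?_⟩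
    intro j hj
    rw [Finset.mem_coe, Finset.mem_union] at hj
    rcases hj with hj | hj
    · obtain ⟨i, hi, rfl⟩ := Finset.mem_image.1 hj
      exact ((hw (fun i => x (a (m + i))) ⟨i, Finset.mem_range.1 hi⟩).1).symm
    · obtain ⟨i, hi, rfl⟩ := Finset.mem_image.1 hj
      have h3 := (hw (fun i => x (a (m + i))) ⟨i, Finset.mem_range.1 hi⟩).2
      show x (b (m + i)) = _
      rw [h3]
      exact (hx i (Finset.mem_range.1 hi)).symm
  calc lam _ ≤ lam (⋃ v ∈ (Finset.univ : Finset (Fin n → Bool)),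
        Set.pi (S : Finset ℕ) fun j => {w v j}) := measure_mono hsub
    _ ≤ ∑ v ∈ (Finset.univ : Finset (Fin n → Bool)), lam (Set.pi (S : Finset ℕ) fun j => {w v j}) :=
        measure_biUnion_finset_le _ _
    _ = 2 ^ n * (2 : ENNReal)⁻¹ ^ (n + n) := by
        simp only [hcyl, Finset.sum_const, Finset.card_univ, Fintype.card_fun, Fintype.card_bool,
          Fintype.card_fin, nsmul_eq_mul, Nat.cast_pow, Nat.cast_ofNat]
    _ = (2 : ENNReal)⁻¹ ^ n := by
        rw [pow_add, ← mul_assoc, ← mul_pow, ENNReal.mul_inv_cancel (by simp) (by simp), one_pow,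
          one_mul]

theorem isE_of_pairs {E : ℕ → ℕ → Prop} (hE : ∀ m, ∃ a b, m ≤ a ∧ a < b ∧ E a b)
    {A : Set (ℕ → Bool)}
    (hA : ∀ x ∈ A, ∃ m, ∀ a b, m ≤ a → a < b → E a b → x a = x b) : IsE A := by
  choose f g hf hfg hE' using hE
  -- a sequence of separated pairs
  let s : ℕ → ℕ := fun i => Nat.rec 0 (fun _ z => g z + 1) i
  have hs : ∀ i, s (i + 1) = g (s i) + 1 := fun _ => rfl
  let a : ℕ → ℕ := fun i => f (s i)
  let b : ℕ → ℕ := fun i => g (s i)
  have h1 : ∀ i, a i < b i := fun i => hfg (s i)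
  have h2 : ∀ i, b i < a (i + 1) := fun i => by
    have := hf (s (i + 1))
    rw [hs] at this
    exact this
  have hsm : ∀ i, i ≤ s i := by
    intro i
    induction i with
    | zero => exact Nat.zero_le _
    | succ i ih =>
      rw [hs]
      have := hf (s i)
      have := hfg (s i)
      omega
  refine ⟨fun m => {x | ∀ i, x (a (m + i)) = x (b (m + i))}, fun m => ⟨?_, ?_⟩, ?_⟩
  · have : {x : ℕ → Bool | ∀ i, x (a (m + i)) = x (b (m + i))} =
        ⋂ i, {x | x (a (m + i)) = x (b (m + i))} := by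
      ext x
      simp
    show IsClosed {x : ℕ → Bool | ∀ i, x (a (m + i)) = x (b (m + i))}
    rw [this]
    exact isClosed_iInter fun i => isClosed_eq (continuous_apply _) (continuous_apply _)
  · have h3 : ∀ n : ℕ, lam {x : ℕ → Bool | ∀ i, x (a (m + i)) = x (b (m + i))} ≤
        (2 : ENNReal)⁻¹ ^ n := fun n => by
      refine (measure_mono ?_).trans (lam_pairs a b h1 h2 m n)
      exact fun x (hx : ∀ i, x (a (m + i)) = x (b (m + i))) i _ => hx i
    have h4 : Tendsto (fun L : ℕ => (2 : ENNReal)⁻¹ ^ L) atTop (𝓝 0) :=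
      ENNReal.tendsto_pow_atTop_nhds_zero_of_lt_one (by
        rw [ENNReal.inv_lt_one]; exact ENNReal.one_lt_two)
    exact le_antisymm (ge_of_tendsto' h4 h3) bot_le
  · intro x hx
    obtain ⟨m, hm⟩ := hA x hx
    refine mem_iUnion.2 ⟨m, fun i => hm _ _ ?_ (h1 _) (hE' _)⟩
    have h3 := hf (s (m + i))
    have h4 := hsm (m + i)
    show m ≤ f (s (m + i))
    omega

theorem isE_empty : IsE ∅ :=
  ⟨fun _ => ∅, fun _ => ⟨isClosed_empty, measure_empty⟩, Set.empty_subset _⟩

theorem not_isE_univ : ¬ IsE Set.univ := by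
  rintro ⟨F, hF, hU⟩
  have h1 : lam (⋃ n, F n) = 0 := measure_iUnion_null fun n => (hF n).2
  have h2 : lam (Set.univ : Set (ℕ → Bool)) = 0 := measure_mono_null hU h1
  rw [measure_univ] at h2
  exact one_ne_zero h2

theorem lt_nonE {K : Type} (h : Cap K) : #K < nonE := by
  have hne : {κ : Cardinal.{0} | ∃ A : Set (ℕ → Bool), ¬ IsE A ∧ #A = κ}.Nonempty :=
    ⟨_, Set.univ, not_isE_univ, rfl⟩
  obtain ⟨A, hA, hcard⟩ := csInf_mem hne
  change #A = nonE at hcard
  rw [← hcard]
  by_contra hcon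
  rw [not_lt] at hcon
  have hAne : Nonempty A := by
    by_contra h1
    rw [not_nonempty_iff, Set.isEmpty_coe_sort] at h1
    exact hA (h1 ▸ isE_empty)
  obtain ⟨e⟩ := (Cardinal.le_def _ _).1 hcon
  obtain ⟨g, hg⟩ : ∃ g : K → A, Function.Surjective g :=
    ⟨Function.invFun e, Function.invFun_surjective e.injective⟩
  obtain ⟨E, hE1, hE2⟩ := h fun k => (g k).1
  refine hA (isE_of_pairs hE1 fun x hx => ?_)
  obtain ⟨k, hk⟩ := hg ⟨x, hx⟩
  have := hE2 k
  rwa [hk] at this

/-! ### The invariants of eventual matching -/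

/-- If there is an injection `j` of a cofinite set with `j i < b i`, then `b_b^eq ≤ #K`. -/
theorem beq_le_of_inj {K : Type} (h : Esc K) {b : ℕ → ℕ} (hb : ∀ i, 1 ≤ b i) (N : ℕ) (j : ℕ → ℕ)
    (hj : ∀ i, N ≤ i → j i < b i) (hinj : ∀ i i', N ≤ i → N ≤ i' → j i = j i' → i = i') :
    beq b ≤ #K := by
  classical
  obtain ⟨y, hy1, hy2⟩ := h
  let f : K → ℕ → ℕ := fun k i => if N ≤ i then y k (j i) else 0
  have hf : ∀ k, f k ∈ Prd b := by
    intro k i
    show f k i < b i
    by_cases hi : N ≤ i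
    · have : f k i = y k (j i) := if_pos hi
      rw [this]
      exact lt_of_le_of_lt (hy1 k (j i)) (hj i hi)
    · have : f k i = 0 := if_neg hi
      rw [this]
      exact hb i
  have hnb : ¬ Bdd b (range f) := by
    rintro ⟨a, g, ha, _, hm⟩
    let h0 : ℕ → ℕ := fun v => if h : ∃ i, N ≤ i ∧ j i = v then g h.choose else 0
    have hh0 : ∀ i, N ≤ i → h0 (j i) = g i := by
      intro i hi
      have h1 : ∃ i', N ≤ i' ∧ j i' = j i := ⟨i, hi, rfl⟩
      have h2 : h0 (j i) = g h1.choose := dif_pos h1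
      rw [h2, hinj _ _ h1.choose_spec.1 hi h1.choose_spec.2]
    obtain ⟨k, m, hkm⟩ := hy2 h0
    obtain ⟨M, hM⟩ := hm (f k) (mem_range_self k)
    have hmono : StrictMono a := strictMono_nat_of_lt_succ ha.2
    -- infinitely many places of agreement
    have hag : ∀ n, ∃ i, n ≤ i ∧ N ≤ i ∧ j i < m := by
      intro n
      obtain ⟨i, h1, h2, h3⟩ := hM (max M (max N n)) (le_max_left _ _)
      have h4 : max M (max N n) ≤ i := (hmono.id_le _).trans h1
      have h5 : N ≤ i := by omega
      refine ⟨i, by omega, h5, ?_⟩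
      by_contra hcon
      have h6 : f k i = y k (j i) := if_pos h5
      rw [h6] at h3
      exact hkm (j i) (not_lt.1 hcon) ((hh0 i h5).trans h3.symm)
    have hinf : {i | N ≤ i ∧ j i < m}.Infinite := by
      rw [Set.infinite_iff_exists_gt]
      intro n
      obtain ⟨i, h1, h2, h3⟩ := hag (n + 1)
      exact ⟨i, ⟨h2, h3⟩, h1⟩
    have hfin : {i | N ≤ i ∧ j i < m}.Finite := by
      refine Set.Finite.of_finite_image (f := j) ((Set.finite_lt_nat m).subset ?_) ?_
      · rintro v ⟨i, hi, rfl⟩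
        exact hi.2
      · intro i hi i' hi' hii
        exact hinj i i' hi.1 hi'.1 hii
    exact hinf hfin
  refine (csInf_le' ⟨range f, ?_, hnb, rfl⟩ : beq b ≤ #(range f)).trans mk_range_le
  rintro _ ⟨k, rfl⟩
  exact hf k

/-- For summable `b` there is such an injection. -/
theorem exists_inj {b : ℕ → ℕ} (hb : ∀ i, 1 ≤ b i) (hs : Summable fun i => (1 : ℝ) / b i) :
    ∃ N : ℕ, ∃ j : ℕ → ℕ, (∀ i, N ≤ i → j i < b i) ∧
      ∀ i i', N ≤ i → N ≤ i' → j i = j i' → i = i' := by
  classical
  obtain ⟨s0, hs0⟩ := hs.vanishing (Iio_mem_nhds (zero_lt_one : (0 : ℝ) < 1))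
  obtain ⟨N, hN⟩ : ∃ N, ∀ i ∈ s0, i < N := ⟨s0.sup id + 1, fun i hi =>
    Nat.lt_succ_of_le (Finset.le_sup (f := id) hi)⟩
  have key : ∀ m, 1 ≤ m → ∀ t : Finset ℕ, (∀ i ∈ t, N ≤ i ∧ b i ≤ m) → t.card < m := by
    intro m hm t ht
    have h1 : Disjoint t s0 := by
      rw [Finset.disjoint_left]
      intro i hi hi'
      have := (ht i hi).1
      have := hN i hi'
      omega
    have h2 : ∑ i ∈ t, (1 : ℝ) / b i < 1 := hs0 t h1
    have h3 : (t.card : ℝ) * (1 / m) ≤ ∑ i ∈ t, (1 : ℝ) / b i := by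
      rw [← nsmul_eq_mul]
      refine Finset.card_nsmul_le_sum _ _ _ fun i hi => ?_
      have h4 : (0 : ℝ) < b i := by exact_mod_cast hb i
      exact one_div_le_one_div_of_le h4 (by exact_mod_cast (ht i hi).2)
    have h5 : (0 : ℝ) < m := by exact_mod_cast hm
    have h6 : (t.card : ℝ) * (1 / m) < 1 := lt_of_le_of_lt h3 h2
    rw [mul_one_div, div_lt_one h5] at h6
    exact_mod_cast h6
  have hfin : ∀ m, {i | N ≤ i ∧ b i ≤ m}.Finite := by
    intro m
    by_contra hcon
    obtain ⟨t, ht, htc⟩ := (show {i | N ≤ i ∧ b i ≤ m}.Infinite from hcon).exists_subset_card_eq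
      (m + 1)
    have h1 := key (m + 1) (by omega) t fun i hi => by
      have := ht hi
      exact ⟨this.1, this.2.trans (Nat.le_succ m)⟩
    omega
  let R : ℕ → ℕ → Prop := fun i' i => b i' < b i ∨ (b i' = b i ∧ i' < i)
  let S : ℕ → Set ℕ := fun i => {i' | N ≤ i' ∧ R i' i}
  have hSfin : ∀ i, (S i).Finite := fun i => (hfin (b i)).subset fun i' hi' => by
    refine ⟨hi'.1, ?_⟩
    rcases hi'.2 with h | h
    · exact h.le
    · exact h.1.le
  refine ⟨N, fun i => (S i).ncard, ?_, ?_⟩
  · intro i hi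
    have h1 : (S i).ncard = (hSfin i).toFinset.card := Set.ncard_eq_toFinset_card _ _
    show (S i).ncard < b i
    rw [h1]
    refine key (b i) (hb i) _ fun i' hi' => ?_
    have h2 : i' ∈ S i := (hSfin i).mem_toFinset.1 hi'
    refine ⟨h2.1, ?_⟩
    rcases h2.2 with h | h
    · exact h.le
    · exact h.1.le
  · have hlt : ∀ i i', N ≤ i → R i i' → (S i).ncard < (S i').ncard := by
      intro i i' hi hii
      refine Set.ncard_lt_ncard ?_ (hSfin i')
      refine ⟨?_, ?_⟩
      · rintro z ⟨hz, hz'⟩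
        refine ⟨hz, ?_⟩
        simp only [R] at hz' hii ⊢
        omega
      · intro hsub
        have h1 : i ∈ S i := hsub ⟨hi, hii⟩
        have h2 := h1.2
        simp only [R] at h2
        omega
    intro i i' hi hi' hii
    by_contra hne
    rcases lt_trichotomy (b i) (b i') with h | h | h
    · exact absurd hii (hlt i i' hi (Or.inl h)).ne
    · rcases lt_or_gt_of_ne hne with h' | h'
      · exact absurd hii (hlt i i' hi (Or.inr ⟨h, h'⟩)).ne
      · exact absurd hii (hlt i' i hi' (Or.inr ⟨h.symm, h'⟩)).ne'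
    · exact absurd hii (hlt i' i hi' (Or.inl h)).ne'

theorem beq_le_of_summable {K : Type} (h : Esc K) {b : ℕ → ℕ} (hb : ∀ i, 1 ≤ b i)
    (hs : Summable fun i => (1 : ℝ) / b i) : beq b ≤ #K := by
  obtain ⟨N, j, h1, h2⟩ := exists_inj hb hs
  exact beq_le_of_inj h hb N j h1 h2

end Pool.Agent.N646.MC
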