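import Mathlib
import Pool.Agent.R593.Eq.Zfc
import Pool.Agent.N646.MC.Zfc

/-!
# `non(E) ≤ b_2^eq`
-/

set_option autoImplicit false

namespace Pool.Agent.N646.MC

open Cardinal MeasureTheory Set Filter Topology Pool.Agent.TH773.PSet Pool.Agent.R593.Eq

theorem interior_null {F : Set (ℕ → Bool)} (h0 : lam F = 0) : interior F = ∅ := by
  classical
  by_contra hne
  obtain ⟨x, hx⟩ := Set.nonempty_iff_ne_empty.2 hne
  obtain ⟨J, u, hu1, hu2⟩ := isOpen_pi_iff.1 isOpen_interior x hx
  obtain ⟨L, hL⟩ : ∃ L, ∀ j ∈ J, j < L := ⟨J.sup id + 1, fun j hj =>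
    Nat.lt_succ_of_le (Finset.le_sup (f := id) hj)⟩
  have h1 : {y : ℕ → Bool | ∀ i : Fin L, y i = x i} ⊆ F := by
    intro y hy
    refine interior_subset (hu2 ?_)
    intro j hj
    have : y j = x j := hy ⟨j, hL j hj⟩
    rw [this]
    exact (hu1 j hj).2
  have h2 := measure_mono_null h1 h0
  rw [lam_cyl L fun i => x i] at h2
  exact (pow_ne_zero L (by simp)) h2

/-- changing finitely many values -/
def flip (u x : ℕ → Bool) : ℕ → Bool := fun j => xor (u j) (x j)

theorem flip_flip (u x : ℕ → Bool) : flip u (flip u x) = x := by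
  funext j
  show xor (u j) (xor (u j) (x j)) = x j
  cases u j <;> cases x j <;> rfl

theorem continuous_flip (u : ℕ → Bool) : Continuous (flip u) := by
  refine continuous_pi fun j => ?_
  have : (fun x : ℕ → Bool => flip u x j) = (fun b : Bool => xor (u j) b) ∘ fun x => x j := rfl
  rw [this]
  exact continuous_of_discreteTopology.comp (continuous_apply j)

theorem interior_flip {u : ℕ → Bool} {F : Set (ℕ → Bool)} (h : interior F = ∅) :
    interior (flip u ⁻¹' F) = ∅ := by
  rw [Set.eq_empty_iff_forall_notMem] at h ⊢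
  intro x hx
  refine h (flip u x) ?_
  refine mem_interior.2 ⟨flip u ⁻¹' interior (flip u ⁻¹' F), ?_,
    isOpen_interior.preimage (continuous_flip u), ?_⟩
  · intro y hy
    have := interior_subset hy
    have h1 : flip u (flip u y) ∈ F := this
    rwa [flip_flip] at h1
  · show flip u (flip u x) ∈ interior (flip u ⁻¹' F)
    rw [flip_flip]
    exact hx

theorem exists_avoid {F : Set (ℕ → Bool)} (hF : IsClosed F) (h : interior F = ∅) (a : ℕ) :
    ∃ a' : ℕ, ∃ w : ℕ → Bool, a < a' ∧ ∀ x ∈ F, ∃ j, a ≤ j ∧ j < a' ∧ x j ≠ w j := by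
  classical
  let U : Finset (ℕ → Bool) := (Finset.univ : Finset (Fin a → Bool)).image
    fun v j => if h : j < a then v ⟨j, h⟩ else false
  have hU : ∀ x y : ℕ → Bool, ∃ u ∈ U, ∀ j, (j < a → flip u x j = y j) ∧
      (a ≤ j → flip u x j = x j) := by
    intro x y
    refine ⟨fun j => if j < a then xor (x j) (y j) else false, ?_, ?_⟩
    · refine Finset.mem_image.2 ⟨fun i => xor (x i) (y i), Finset.mem_univ _, ?_⟩
      funext j
      by_cases h : j < a
      · simp [h]
      · simp [h]
    · intro j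
      constructor
      · intro hj
        show xor (if j < a then xor (x j) (y j) else false) (x j) = y j
        rw [if_pos hj]
        cases x j <;> cases y j <;> rfl
      · intro hj
        show xor (if j < a then xor (x j) (y j) else false) (x j) = x j
        rw [if_neg (not_lt.2 hj)]
        cases x j <;> rfl
  let G : Set (ℕ → Bool) := ⋃ u ∈ U, flip u ⁻¹' F
  have hG : IsClosed G ∧ interior G = ∅ := by
    have key : ∀ V : Finset (ℕ → Bool), IsClosed (⋃ u ∈ V, flip u ⁻¹' F) ∧
        interior (⋃ u ∈ V, flip u ⁻¹' F) = ∅ := by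
      intro V
      induction V using Finset.induction_on with
      | empty => simp
      | insert u V _ ih =>
        rw [Finset.set_biUnion_insert]
        refine ⟨(hF.preimage (continuous_flip u)).union ih.1, ?_⟩
        rw [interior_union_isClosed_of_interior_empty (hF.preimage (continuous_flip u)) ih.2]
        exact interior_flip h
    exact key U
  obtain ⟨x, hx⟩ : ∃ x, x ∉ G := by
    by_contra hcon
    push Not at hcon
    have h1 : G = Set.univ := Set.eq_univ_of_forall hcon
    have h2 := hG.2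
    rw [h1, interior_univ] at h2
    exact Set.univ_nonempty.ne_empty h2
  obtain ⟨J, v, hv1, hv2⟩ := isOpen_pi_iff.1 hG.1.isOpen_compl x hx
  obtain ⟨L, hL⟩ : ∃ L, ∀ j ∈ J, j < L := ⟨J.sup id + 1, fun j hj =>
    Nat.lt_succ_of_le (Finset.le_sup (f := id) hj)⟩
  refine ⟨max (a + 1) L, x, by omega, fun y hy => ?_⟩
  by_contra hcon
  push Not at hcon
  obtain ⟨u, hu, huy⟩ := hU y x
  have h3 : flip u y ∈ Gᶜ := by
    refine hv2 fun j hj => ?_
    have h4 : flip u y j = x j := by
      by_cases hja : j < a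
      · exact (huy j).1 hja
      · rw [(huy j).2 (not_lt.1 hja)]
        exact hcon j (not_lt.1 hja) (lt_of_lt_of_le (hL j hj) (le_max_right _ _))
    rw [h4]
    exact (hv1 j hj).2
  refine h3 (mem_iUnion₂.2 ⟨u, hu, ?_⟩)
  show flip u (flip u y) ∈ F
  rw [flip_flip]
  exact hy

theorem exists_loc {a : ℕ → ℕ} (ham : StrictMono a) (h0 : a 0 = 0) (j : ℕ) :
    ∃ n, a n ≤ j ∧ j < a (n + 1) := by
  classical
  have h1 : ∃ k, j < a k := ⟨j + 1, lt_of_lt_of_le (Nat.lt_succ_self j) (ham.id_le _)⟩
  have h2 := Nat.find_spec h1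
  have h3 : Nat.find h1 ≠ 0 := by
    intro h4
    rw [h4, h0] at h2
    exact absurd h2 (Nat.not_lt_zero j)
  obtain ⟨i, hi⟩ := Nat.exists_eq_succ_of_ne_zero h3
  refine ⟨i, ?_, ?_⟩
  · have := Nat.find_min h1 (m := i) (by omega)
    omega
  · rw [hi] at h2
    exact h2

theorem bdd_two {F : Set (ℕ → ℕ)} (hF : F ⊆ Prd fun _ => 2) (h : #F < nonE) :
    Bdd (fun _ => 2) F := by
  classical
  let g : (ℕ → ℕ) → ℕ → Bool := fun f j => decide (f j = 1)
  have hE : IsE (g '' F) := by
    by_contra hcon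
    have h1 : nonE ≤ #(g '' F) := csInf_le' ⟨_, hcon, rfl⟩
    exact absurd (h1.trans mk_image_le) (not_le.2 h)
  obtain ⟨C, hC, hsub⟩ := hE
  let K : ℕ → Set (ℕ → Bool) := fun n => ⋃ k ∈ Finset.range (n + 1), C k
  have hK : ∀ n, IsClosed (K n) ∧ interior (K n) = ∅ := by
    intro n
    refine ⟨isClosed_biUnion_finset fun k _ => (hC k).1, interior_null ?_⟩
    exact (measure_biUnion_null_iff (Finset.countable_toSet _)).2 fun k _ => (hC k).2
  choose A w hA hw using fun n a => exists_avoid (hK n).1 (hK n).2 a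
  let a : ℕ → ℕ := fun n => Nat.rec 0 (fun n z => A n z) n
  have haS : ∀ n, a (n + 1) = A n (a n) := fun _ => rfl
  have halt : ∀ n, a n < a (n + 1) := fun n => by
    rw [haS]
    exact hA n (a n)
  have ham : StrictMono a := strictMono_nat_of_lt_succ halt
  -- the function `h`
  have hloc := exists_loc ham rfl
  choose N hN1 hN2 using hloc
  have hNuniq : ∀ n j, a n ≤ j → j < a (n + 1) → N j = n := by
    intro n j h1 h2
    have h3 := hN1 j
    have h4 := hN2 j
    by_contra hne
    rcases lt_or_gt_of_ne hne with h5 | h5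
    · have := ham.monotone (show N j + 1 ≤ n from h5)
      omega
    · have := ham.monotone (show n + 1 ≤ N j from h5)
      omega
  refine ⟨a, fun j => if w (N j) (a (N j)) j then 0 else 1, ⟨rfl, halt⟩, ?_, ?_⟩
  · intro j
    show (if w (N j) (a (N j)) j then 0 else 1) < 2
    split_ifs <;> omega
  · intro f hf
    obtain ⟨k, hk⟩ := mem_iUnion.1 (hsub ⟨f, hf, rfl⟩)
    refine ⟨k, fun n hn => ?_⟩
    have h1 : g f ∈ K n := mem_iUnion₂.2 ⟨k, Finset.mem_range.2 (by omega), hk⟩
    obtain ⟨j, hj1, hj2, hj3⟩ := hw n (a n) (g f) h1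
    refine ⟨j, hj1, hj2, ?_⟩
    show f j = if w (N j) (a (N j)) j then 0 else 1
    rw [hNuniq n j hj1 hj2]
    have h2 : f j < 2 := hF hf j
    have h3 : g f j = decide (f j = 1) := rfl
    rw [h3] at hj3
    cases hwj : w n (a n) j with
    | true =>
      rw [hwj] at hj3
      simp only [ne_eq, decide_eq_true_eq] at hj3
      simp only [if_true]
      omega
    | false =>
      rw [hwj] at hj3
      simp only [ne_eq, decide_eq_false_iff_not, not_not] at hj3
      simp only [Bool.false_eq_true, if_false]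
      exact hj3

/-- `non(E) ≤ b_2^eq` -/
theorem nonE_le_beq_two : nonE ≤ beq fun _ => 2 := by
  have hne : {κ : Cardinal.{0} | ∃ F ⊆ Prd (fun _ => 2), ¬ Bdd (fun _ => 2) F ∧ #F = κ}.Nonempty :=
    ⟨_, Prd (fun _ => 2), Subset.rfl, not_bdd_prd (fun _ => one_le_two)
      (Eventually.of_forall fun _ => le_rfl), rfl⟩
  obtain ⟨F, hF, hFb, hcard⟩ := csInf_mem hne
  change #F = beq (fun _ => 2) at hcard
  rw [← hcard]
  by_contra hcon
  exact hFb (bdd_two hF (not_le.1 hcon))

theorem divergent_two : Divergent fun _ => 2 := by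
  refine ⟨fun _ => one_le_two, fun h => ?_⟩
  have h1 := h.tendsto_atTop_zero
  have h2 : Tendsto (fun _ : ℕ => (1 : ℝ) / ((2 : ℕ) : ℝ)) atTop (𝓝 ((1 : ℝ) / ((2 : ℕ) : ℝ))) :=
    tendsto_const_nhds
  have h3 := tendsto_nhds_unique h1 h2
  norm_num at h3

theorem divergent_add_two : Divergent fun k => k + 2 := by
  refine ⟨fun k => Nat.le_add_left 1 (k + 1), fun h => ?_⟩
  refine Real.not_summable_one_div_natCast ?_
  refine (summable_nat_add_iff 2).1 (h.congr fun k => ?_)
  push_cast
  rfl

theorem beq_le_of_lt {K : Type} (h : Esc K) {b : ℕ → ℕ} (hb : ∀ i, 1 ≤ b i)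
    (hb2 : ∀ᶠ k in atTop, k < b k) : beq b ≤ #K := by
  obtain ⟨N, hN⟩ := eventually_atTop.1 hb2
  exact beq_le_of_inj h hb N id (fun i hi => hN i hi) fun i i' _ _ h => h

end Pool.Agent.N646.MC
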