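import Pool.Agent.N646.MC.Forced
import Pool.Agent.N646.MC.Two

/-!
# Names for functions in `∏ b` where `b` tends to infinity
-/

set_option autoImplicit false

namespace Pool.Agent.N646.MC

open Cardinal Set Filter Pool.Agent.TH773.PSet Pool.Agent.R593.Rnd

variable {Λ : Type}

/-- There are functions `y k ∈ ∏ b`, `k ∈ K`, such that every function is eventually different
from some `y k`. -/
def EscB (b : ℕ → ℕ) (K : Type) : Prop :=
  ∃ y : K → ℕ → ℕ, (∀ k j, y k j < b j) ∧ ∀ h : ℕ → ℕ, ∃ k, ∃ m, ∀ j, m ≤ j → h j ≠ y k j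

/-- Forcing version of: `y j < b j` for all `j`. -/
def UnderN {P : Type} [Preorder P] (b : ℕ → ℕ) (y : ℕ → ℕ → Set P) : Set P :=
  fall fun j => fall fun v => fall fun _ : b j ≤ v => fnot (meets (y j v))

/-- Forcing version of `EscB b`. -/
def EscBN (P : Type) [Preorder P] (b : ℕ → ℕ) (K : Type) : Set P :=
  fex fun y : K → ℕ → ℕ → Set P => fand (fall fun k => fand (IsFun (y k)) (UnderN b (y k)))
    (fall fun h : ℕ → ℕ → Set P => fimp (IsFun h) (fex fun k => DiffN h (y k)))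

/-- The possible decisions about the value of the function named by `h` at `j`: a number below
`b j`, or no such number. -/
def decValB (b : ℕ → ℕ) (h : ℕ → ℕ → Set (Cond Λ)) (j : ℕ) : Option (Fin (b j)) → Set (Cond Λ)
  | some v => meets (h j v)
  | none => fall fun v : Fin (b j) => fnot (meets (h j v))

theorem reg_decValB (b : ℕ → ℕ) (h : ℕ → ℕ → Set (Cond Λ)) (j : ℕ) (v : Option (Fin (b j))) :
    Reg (decValB b h j v) := by
  cases v with
  | none => exact reg_fall fun _ => reg_fnot (reg_meets _).1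
  | some v => exact reg_meets _

theorem dense_decValB (b : ℕ → ℕ) (h : ℕ → ℕ → Set (Cond Λ)) (j : ℕ) (q : Cond Λ) :
    ∃ r ≤ q, ∃ v, r ∈ decValB b h j v := by
  by_cases h1 : ∃ r ≤ q, ∃ v : Fin (b j), r ∈ meets (h j v)
  · obtain ⟨r, hr, v, hv⟩ := h1
    exact ⟨r, hr, some v, hv⟩
  · push Not at h1
    exact ⟨q, le_rfl, none, fun v r hr => h1 r hr v⟩

theorem exists_decB (b : ℕ → ℕ) (h : ℕ → ℕ → Set (Cond Λ)) (n J : ℕ) (r : Cond Λ) :
    ∃ r', PureN n r' r ∧ ∀ t ∈ Hist r.X r.C n, ∀ j < J, ∃ v, r'.next n t ∈ decValB b h j v := by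
  induction J with
  | zero => exact ⟨r, PureN.refl _ _, fun t _ j hj => absurd hj (Nat.not_lt_zero j)⟩
  | succ J ih =>
    obtain ⟨r1, h1, h2⟩ := ih
    obtain ⟨r2, h3, h4⟩ := pure_decide_all (reg_decValB b h J) (p := r1) n
      fun q _ => dense_decValB b h J q
    refine ⟨r2, h3.trans h1, fun t ht j hj => ?_⟩
    rcases Nat.lt_succ_iff_lt_or_eq.1 hj with hj | rfl
    · obtain ⟨v, hv⟩ := h2 t ht j hj
      exact ⟨v, (reg_decValB b h j v).1 _ hv _ (h3.toPure.next' n t).le⟩
    · exact h4 t (by rw [h1.hist_eq le_rfl]; exact ht)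

theorem laverB {b : ℕ → ℕ} (hb : ∀ j, 1 ≤ b j) (hb2 : Tendsto b atTop atTop)
    (h : ℕ → ℕ → Set (Cond Λ)) (p : Cond Λ) (hp : p ∈ IsFun h) :
    ∃ q, Pure q p ∧ ∃ y : ℕ → ℕ, (∀ j, y j < b j) ∧ ∃ m, ∀ j, m ≤ j →
      q ∈ fnot (meets (h j (y j))) := by
  classical
  have hbd : ∀ M, ∃ J, ∀ j, b j ≤ M → j < J := by
    intro M
    obtain ⟨J, hJ⟩ := eventually_atTop.1 (hb2.eventually (eventually_gt_atTop M))
    refine ⟨J, fun j hj => ?_⟩
    by_contra hcon
    exact absurd (hJ j (not_lt.1 hcon)) (not_lt.2 hj)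
  obtain ⟨q, n, x, hq, hn0, h1, h2, h3, h4, h5⟩ := fusion (fun _ => True)
    (fun _ _ _ _ => trivial)
    (fun r n x => ∀ t ∈ Hist r.X r.C n, ∀ j, b j ≤ cnt r (x + 1) →
      ∃ v, r.next n t ∈ decValB b h j v)
    (fun r r' n x hnx hr hr' t ht j hj => by
      rw [hr'.hist_eq (hnx.trans (Nat.le_succ x))] at ht
      rw [hr'.cnt_eq le_rfl] at hj
      obtain ⟨v, hv⟩ := hr t ht j hj
      exact ⟨v, (reg_decValB b h j v).1 _ hv _ (hr'.toPure.next' n t).le⟩)
    (fun r n E m _ => by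
      let M : ℕ := (max m 2 * max m 2) ^ E.card
      obtain ⟨J, hJ⟩ := hbd
        ((Hist r.X r.C n).ncard * (1 + M) + ({y | y ∈ r.X ∧ y < n}.ncard + 1))
      obtain ⟨r1, h1, h2⟩ := exists_decB b h n J r
      obtain ⟨r2, x, h3, _, h5, h6, h7, h8, h9⟩ := exists_advance_thin r1 n E (max m 2)
        (le_max_right _ _)
      have h10 := h3.trans h1
      refine ⟨r2, x, h10, h5, h6, h7, fun α hα hαD => (le_max_left _ _).trans
        (h8 α hα (h1.D hαD)), ?_⟩
      intro t ht j hj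
      have h11 := cnt_le h5 h6 h7 h9
      have h12 : {y | y ∈ r2.X ∧ y < n} = {y | y ∈ r.X ∧ y < n} := by
        ext y
        exact ⟨fun hy => ⟨h10.X hy.1, hy.2⟩, fun hy => ⟨h10.keepX y hy.2 hy.1, hy.2⟩⟩
      rw [h10.hist_eq le_rfl, h12] at h11
      rw [h10.hist_eq le_rfl] at ht
      obtain ⟨v, hv⟩ := h2 t ht j (hJ j (hj.trans h11))
      exact ⟨v, (reg_decValB b h j v).1 _ hv _ (h3.toPure.next' n t).le⟩)
    p trivial 0
  have hH : StrictMono fun i => cnt q (n i) := strictMono_nat_of_lt_succ fun i => by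
    rw [h2]
    exact cnt_lt (h1 i) (h3 i) (h4 i)
  -- the values to be avoided
  have key : ∀ j, ∃ v < b j, cnt q (n 0) < b j → q ∈ fnot (meets (h j v)) := by
    intro j
    by_cases hj : cnt q (n 0) < b j
    · obtain ⟨i, hi1, hi2⟩ : ∃ i, cnt q (n i) < b j ∧ b j ≤ cnt q (n (i + 1)) := by
        have h6 : ∃ k, b j ≤ cnt q (n k) := ⟨b j, hH.id_le _⟩
        have h7 := Nat.find_spec h6
        have h8 : Nat.find h6 ≠ 0 := by
          intro h9
          rw [h9] at h7
          omega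
        obtain ⟨i, hi⟩ := Nat.exists_eq_succ_of_ne_zero h8
        refine ⟨i, ?_, ?_⟩
        · have := Nat.find_min h6 (m := i) (by omega)
          omega
        · rw [hi] at h7
          exact h7
      rw [h2] at hi2
      have hfin := q.finite_hist (n i)
      have : Fintype (Hist q.X q.C (n i)) := hfin.fintype
      choose! val hval using fun t (ht : t ∈ Hist q.X q.C (n i)) => h5 i t ht j hi2
      let S : Finset (Option (Fin (b j))) := hfin.toFinset.image val
      have hS : S.card < b j := by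
        refine lt_of_le_of_lt Finset.card_image_le ?_
        rw [← Set.ncard_eq_toFinset_card _ hfin]
        exact lt_of_le_of_lt (Nat.le_add_right _ _) hi1
      obtain ⟨v, hv⟩ : ∃ v : Fin (b j), some v ∉ S := by
        by_contra hcon
        push Not at hcon
        have h6 : (Finset.univ.image (some : Fin (b j) → Option (Fin (b j)))) ⊆ S := by
          intro z hz
          obtain ⟨v, _, rfl⟩ := Finset.mem_image.1 hz
          exact hcon v
        have h7 := Finset.card_le_card h6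
        rw [Finset.card_image_of_injective _ (Option.some_injective _), Finset.card_univ,
          Fintype.card_fin] at h7
        omega
      refine ⟨v, v.2, fun _ r hr hr' => ?_⟩
      obtain ⟨r', hr1, t, ht, hr2⟩ := exists_le_next hr (n i)
      have h6 := (reg_decValB b h j (val t)).1 _ (hval t ht) r' hr2
      have h7 : r' ∈ meets (h j v) := (reg_meets _).1 _ hr' r' hr1
      have h8 : val t ≠ some v := by
        intro h9
        refine hv (Finset.mem_image.2 ⟨t, hfin.mem_toFinset.2 ht, h9⟩)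
      have hr'p : r' ≤ p := hr1.trans (hr.trans hq.toPure.le)
      rcases hvt : val t with _ | w
      · rw [hvt] at h6
        exact h6 v r' le_rfl h7
      · rw [hvt] at h6 h8
        have h9 : (w : ℕ) ≠ v := fun h10 => h8 (by rw [Fin.ext h10])
        exact hp.2 j w v h9 r' hr'p ⟨h6, h7⟩
    · exact ⟨0, hb j, fun h => absurd h hj⟩
  choose y hy1 hy2 using key
  obtain ⟨J, hJ⟩ := hbd (cnt q (n 0))
  exact ⟨q, hq.toPure, y, hy1, J, fun j hj => hy2 j (by
    by_contra hcon
    exact absurd (hJ j (not_lt.1 hcon)) (not_lt.2 hj))⟩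

theorem escB_forced {K : Type} (hK : 𝔠 ≤ #K) {b : ℕ → ℕ} (hb : ∀ j, 1 ≤ b j)
    (hb2 : Tendsto b atTop atTop) (p : Cond Λ) : p ∈ EscBN (Cond Λ) b K := by
  classical
  let Y : Type := {y : ℕ → ℕ // ∀ j, y j < b j}
  have hY : #Y ≤ #K := by
    refine le_trans ?_ hK
    refine (mk_subtype_le _).trans ?_
    rw [← power_def, mk_nat]
    exact (aleph0_power_aleph0).le
  obtain ⟨e⟩ := (Cardinal.le_def _ _).1 hY
  have hYne : Nonempty Y := ⟨⟨fun _ => 0, fun j => hb j⟩⟩
  obtain ⟨g, hg⟩ : ∃ g : K → Y, Function.Surjective g :=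
    ⟨Function.invFun e, Function.invFun_surjective e.injective⟩
  refine mem_fex_of (fun k => check (g k).1) fun q _ => ⟨fun k => ⟨check_isFun _ _, ?_⟩, ?_⟩
  · intro j v hjv r _ hr
    have h1 := mem_meets_check.1 hr
    have h2 := (g k).2 j
    omega
  · intro h
    rw [mem_fimp_reg (reg_isFun h).1 (reg_fex _)]
    intro q1 _ hq1
    rw [mem_fex]
    intro q2 hq2
    obtain ⟨q3, hq3, y, hy, m, hm⟩ := laverB hb hb2 h q2 ((reg_isFun h).1 _ hq1 _ hq2)
    obtain ⟨k, hk⟩ := hg ⟨y, hy⟩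
    refine ⟨q3, hq3.le, k, mem_fex_of m fun r hr j hmj v z hz hz' => ?_⟩
    have h0 : z ∈ meets (check (g k).1 j v) := hz'.2
    rw [hk] at h0
    have h1 : y j = v := mem_meets_check.1 h0
    have h2 := hm j hmj z (hz.trans hr)
    rw [h1] at h2
    exact h2 hz'.1

open Pool.Agent.R593.Eq in
theorem beq_le_of_escB {K : Type} {b : ℕ → ℕ} (h : EscB b K) : beq b ≤ #K := by
  obtain ⟨y, hy1, hy2⟩ := h
  have hnb : ¬ Bdd b (range y) := by
    rintro ⟨a, g, ha, _, hm⟩
    obtain ⟨k, m, hkm⟩ := hy2 g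
    obtain ⟨M, hM⟩ := hm (y k) (mem_range_self k)
    have hmono : StrictMono a := strictMono_nat_of_lt_succ ha.2
    obtain ⟨i, h1, _, h3⟩ := hM (max M m) (le_max_left _ _)
    have h4 : max M m ≤ i := (hmono.id_le _).trans h1
    exact hkm i (by omega) h3.symm
  refine (csInf_le' ⟨range y, ?_, hnb, rfl⟩ : beq b ≤ #(range y)).trans mk_range_le
  rintro _ ⟨k, rfl⟩
  exact hy1 k

end Pool.Agent.N646.MC
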