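import Pool.Agent.N646.MC.Fusion

/-!
# Ramsey's theorem for blocks
-/

set_option autoImplicit false

namespace Pool.Agent.N646.MC

open Set

variable {Λ : Type}

theorem end_hom (κ : Type) [Finite κ] (m : ℕ) : ∃ N : ℕ, ∀ A : Finset ℕ, N ≤ A.card →
    ∀ c : ℕ → ℕ → κ, ∃ B ⊆ A, B.card = m ∧ ∃ g : ℕ → κ, ∀ a ∈ B, ∀ b ∈ B, a < b →
      c a b = g a := by
  classical
  have : Fintype κ := Fintype.ofFinite κ
  induction m with
  | zero =>
    refine ⟨0, fun A _ c => ⟨∅, Finset.empty_subset _, rfl, fun a => c a a, ?_⟩⟩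
    intro a ha
    simp at ha
  | succ m ih =>
    obtain ⟨N, hN⟩ := ih
    refine ⟨Fintype.card κ * N + 1, fun A hA c => ?_⟩
    have hne : A.Nonempty := Finset.card_pos.1 (by omega)
    set a0 := A.min' hne with ha0
    have h1 : a0 ∈ A := A.min'_mem hne
    have h2 : Fintype.card κ * N ≤ (A.erase a0).card := by
      rw [Finset.card_erase_of_mem h1]
      omega
    have hκ : Nonempty κ := ⟨c 0 0⟩
    obtain ⟨k, _, hk⟩ := Finset.exists_le_card_fiber_of_mul_le_card_of_maps_to
      (s := A.erase a0) (t := (Finset.univ : Finset κ)) (f := fun b => c a0 b) (n := N)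
      (fun b _ => Finset.mem_univ _) Finset.univ_nonempty (by rw [Finset.card_univ]; exact h2)
    obtain ⟨B, hB, hBc, g, hg⟩ := hN _ hk c
    have hB' : B ⊆ A.erase a0 := hB.trans (Finset.filter_subset _ _)
    have h3 : a0 ∉ B := fun h => absurd (hB' h) (Finset.notMem_erase _ _)
    refine ⟨insert a0 B, ?_, ?_, fun a => if a = a0 then k else g a, ?_⟩
    · intro b hb
      rcases Finset.mem_insert.1 hb with rfl | hb
      · exact h1
      · exact Finset.mem_of_mem_erase (hB' hb)
    · rw [Finset.card_insert_of_notMem h3, hBc]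
    · intro a ha b hb hab
      rcases Finset.mem_insert.1 ha with rfl | ha
      · rcases Finset.mem_insert.1 hb with rfl | hb
        · exact absurd hab (lt_irrefl _)
        · show c a0 b = if a0 = a0 then k else g a0
          rw [if_pos rfl]
          exact (Finset.mem_filter.1 (hB hb)).2
      · have h4 : a ≠ a0 := fun h => h3 (h ▸ ha)
        show c a b = if a = a0 then k else g a
        rw [if_neg h4]
        rcases Finset.mem_insert.1 hb with rfl | hb
        · exact absurd (A.min'_le a (Finset.mem_of_mem_erase (hB' ha))) (not_le.2 hab)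
        · exact hg a ha b hb hab

theorem ramsey_pairs (κ : Type) [Finite κ] (n : ℕ) : ∃ N : ℕ, ∀ A : Finset ℕ, N ≤ A.card →
    ∀ c : ℕ → ℕ → κ, ∃ B ⊆ A, B.card = n ∧ ∃ k : κ, ∀ a ∈ B, ∀ b ∈ B, a < b → c a b = k := by
  classical
  have : Fintype κ := Fintype.ofFinite κ
  obtain ⟨N, hN⟩ := end_hom κ (Fintype.card κ * n)
  refine ⟨N, fun A hA c => ?_⟩
  obtain ⟨B, hB, hBc, g, hg⟩ := hN A hA c
  have hκ : Nonempty κ := ⟨c 0 0⟩
  obtain ⟨k, _, hk⟩ := Finset.exists_le_card_fiber_of_mul_le_card_of_maps_to
    (s := B) (t := (Finset.univ : Finset κ)) (f := g) (n := n)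
    (fun b _ => Finset.mem_univ _) Finset.univ_nonempty (by rw [Finset.card_univ, hBc])
  obtain ⟨B', hB', hBc'⟩ := Finset.exists_subset_card_eq hk
  refine ⟨B', (hB'.trans (Finset.filter_subset _ _)).trans hB, hBc', k, ?_⟩
  intro a ha b hb hab
  have h1 := Finset.mem_filter.1 (hB' ha)
  rw [hg a h1.1 b (Finset.mem_filter.1 (hB' hb)).1 hab]
  exact h1.2

theorem pair_unique {B : Finset ℕ} (hB : B.card ≤ 2) {a b c d : ℕ} (ha : a ∈ B) (hb : b ∈ B)
    (hc : c ∈ B) (hd : d ∈ B) (hab : a < b) (hcd : c < d) : a = c ∧ b = d := by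
  classical
  have h1 : ({a, b} : Finset ℕ).card = 2 := Finset.card_pair hab.ne
  have h2 : ({a, b} : Finset ℕ) = B := Finset.eq_of_subset_of_card_le
    (by intro x hx; simp only [Finset.mem_insert, Finset.mem_singleton] at hx; aesop) (by omega)
  have h3 : ({c, d} : Finset ℕ) = B := Finset.eq_of_subset_of_card_le
    (by intro x hx; simp only [Finset.mem_insert, Finset.mem_singleton] at hx; aesop)
    (by rw [Finset.card_pair hcd.ne]; exact hB)
  rw [← h2] at hc hd
  simp only [Finset.mem_insert, Finset.mem_singleton] at hc hd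
  omega

theorem block_ramsey (E : Finset Λ) : ∀ (κ : Type) [Finite κ] (m : ℕ), 2 ≤ m → ∃ N : ℕ,
    ∀ B : Λ → Finset ℕ, (∀ α ∈ E, N ≤ (B α).card) → ∀ c : (Λ → Finset (ℕ × ℕ)) → κ,
      ∃ B' : Λ → Finset ℕ, (∀ α, B' α ⊆ B α) ∧
        (∀ α, 2 ≤ (B α).card → 2 ≤ (B' α).card) ∧ (∀ α ∈ E, (B' α).card = m) ∧
        (∀ α ∉ E, (B' α).card ≤ 2) ∧
        ∀ e e', Pick B' e → Pick B' e' → c e = c e' := by
  classical
  induction E using Finset.induction_on with
  | empty =>
    intro κ _ m _
    refine ⟨0, fun B _ c => ?_⟩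
    have h : ∀ α : Λ, ∃ S : Finset ℕ, S ⊆ B α ∧ S.card ≤ 2 ∧
        (2 ≤ (B α).card → 2 ≤ S.card) := by
      intro α
      by_cases h2 : 2 ≤ (B α).card
      · obtain ⟨S, hS, hSc⟩ := Finset.exists_subset_card_eq h2
        exact ⟨S, hS, hSc.le, fun _ => hSc.ge⟩
      · exact ⟨B α, Finset.Subset.refl _, by omega, fun h => absurd h h2⟩
    choose B' hB1 hB2 hB3 using h
    refine ⟨B', hB1, hB3, fun α hα => by simp at hα, fun α _ => hB2 α, ?_⟩
    intro e e' he he'
    have : e = e' := by
      funext α
      by_cases h2 : 2 ≤ (B' α).card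
      · obtain ⟨a, ha, b, hb, hab, h3⟩ := he.1 α h2
        obtain ⟨a', ha', b', hb', hab', h3'⟩ := he'.1 α h2
        obtain ⟨h4, h5⟩ := pair_unique (hB2 α) ha hb ha' hb' hab hab'
        rw [h3, h3', h4, h5]
      · rw [he.2 α (not_le.1 h2), he'.2 α (not_le.1 h2)]
    rw [this]
  | insert β E hβ ih =>
    intro κ _ m hm
    obtain ⟨R, hR⟩ := ramsey_pairs κ m
    obtain ⟨N, hN⟩ := ih (Fin R → Fin R → κ) m hm
    refine ⟨max R N, fun B hB c => ?_⟩
    obtain ⟨Bβ, hBβ, hBβc⟩ := Finset.exists_subset_card_eq
      ((le_max_left R N).trans (hB β (Finset.mem_insert_self _ _)))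
    let f : Fin R → ℕ := fun i => Bβ.orderEmbOfFin hBβc i
    have hf : ∀ a ∈ Bβ, ∃ i, f i = a := by
      intro a ha
      have h1 : a ∈ Set.range (Bβ.orderEmbOfFin hBβc) := by
        rw [Finset.range_orderEmbOfFin]
        exact ha
      exact h1
    obtain ⟨B1, h1, h2, h3, h3', h4⟩ := hN (Function.update B β ∅) (fun α hα => by
        have hne : α ≠ β := fun h => hβ (h ▸ hα)
        rw [Function.update_of_ne hne]
        exact (le_max_right R N).trans (hB α (Finset.mem_insert_of_mem hα)))
      (fun e i j => c (Function.update e β {(f i, f j)}))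
    have hB1β : B1 β = ∅ := by
      have := h1 β
      rw [Function.update_self] at this
      exact Finset.subset_empty.1 this
    obtain ⟨e0, he0⟩ := exists_pick B1
    obtain ⟨B3, hB3, hB3c, k, hk⟩ := hR Bβ (by rw [hBβc])
      (fun a b => c (Function.update e0 β {(a, b)}))
    refine ⟨Function.update B1 β B3, ?_, ?_, ?_, ?_, ?_⟩
    · intro α
      by_cases h : α = β
      · subst h
        rw [Function.update_self]
        exact hB3.trans hBβ
      · rw [Function.update_of_ne h]
        have := h1 α
        rwa [Function.update_of_ne h] at this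
    · intro α hα
      by_cases h : α = β
      · subst h
        rw [Function.update_self, hB3c]
        exact hm
      · rw [Function.update_of_ne h]
        have := h2 α
        rw [Function.update_of_ne h] at this
        exact this hα
    · intro α hα
      by_cases h : α = β
      · subst h
        rw [Function.update_self, hB3c]
      · rw [Function.update_of_ne h]
        exact h3 α (Finset.mem_of_mem_insert_of_ne hα h)
    · intro α hα
      have h : α ≠ β := fun h => hα (h ▸ Finset.mem_insert_self _ _)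
      rw [Function.update_of_ne h]
      exact h3' α fun h5 => hα (Finset.mem_insert_of_mem h5)
    · have key : ∀ e, Pick (Function.update B1 β B3) e → c e = k := by
        intro e he
        obtain ⟨a, ha, b, hb, hab, h5⟩ := he.1 β (by rw [Function.update_self, hB3c]; exact hm)
        rw [Function.update_self] at ha hb
        have h6 : Pick B1 (Function.update e β ∅) := by
          constructor
          · intro α hα
            have hne : α ≠ β := by
              rintro rfl
              rw [hB1β] at hα
              simp at hα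
            rw [Function.update_of_ne hne]
            have := he.1 α
            rw [Function.update_of_ne hne] at this
            exact this hα
          · intro α hα
            by_cases h : α = β
            · subst h
              rw [Function.update_self]
            · rw [Function.update_of_ne h]
              have := he.2 α
              rw [Function.update_of_ne h] at this
              exact this hα
        obtain ⟨i, hi⟩ := hf a (hB3 ha)
        obtain ⟨j, hj⟩ := hf b (hB3 hb)
        have h7 := congrFun (congrFun (h4 _ _ h6 he0) i) j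
        simp only [Function.update_idem, hi, hj] at h7
        have h8 : Function.update e β {(a, b)} = e := by
          rw [← h5, Function.update_eq_self]
        rw [h8] at h7
        rw [h7]
        exact hk a ha b hb hab
      intro e e' he he'
      rw [key e he, key e' he']

/-- The blocks of a condition can be shrunk such that a given colouring of the picks is
constant. -/
theorem homog (r : Cond Λ) (n : ℕ) (κ : Type) [Finite κ]
    (c : ℕ → (Λ → Finset (ℕ × ℕ)) → κ) :
    ∃ r' : Cond Λ, PureN n r' r ∧ r'.D = r.D ∧ ∃ k, ∀ y ∈ r'.X, n ≤ y → ∀ e,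
      Pick (r'.C y) e → c y e = k := by
  classical
  obtain ⟨f, hf1, hf2, hf3⟩ := exists_exhaust r.D r.cD
  choose R hR using fun m => block_ramsey (f m) κ (m + 2) (by omega)
  -- labels with large blocks
  have hlab : ∀ m L, ∃ y ∈ r.X, L < y ∧ ∀ α ∈ f m, R m ≤ (r.C y α).card := by
    intro m L
    obtain ⟨r1, y, h1, h2, h3, h4, h5, _, h6⟩ := exists_advance r (L + 1) (f m) (R m)
    refine ⟨y, h1.X h5, h4, fun α hα => ?_⟩
    have := h6 α hα (hf1 m α hα)
    rwa [h3] at this
  choose! Y hY1 hY2 hY3 using hlab
  let y : ℕ → ℕ := fun m => Nat.rec (Y 0 n) (fun m z => Y (m + 1) z) m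
  have hy0 : y 0 = Y 0 n := rfl
  have hyS : ∀ m, y (m + 1) = Y (m + 1) (y m) := fun _ => rfl
  have hyX : ∀ m, y m ∈ r.X := by
    intro m
    cases m with
    | zero => exact hY1 0 n
    | succ m => rw [hyS]; exact hY1 _ _
  have hybig : ∀ m, ∀ α ∈ f m, R m ≤ (r.C (y m) α).card := by
    intro m
    cases m with
    | zero => exact hY3 0 n
    | succ m => rw [hyS]; exact hY3 _ _
  have hymono : StrictMono y := strictMono_nat_of_lt_succ fun m => by
    rw [hyS]
    exact hY2 _ _
  have hyn : ∀ m, n < y m := fun m => lt_of_lt_of_le (hY2 0 n) (hymono.monotone (Nat.zero_le m))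
  choose B hB1 hB2 hB3 hB4 hB5 using fun m => hR m (r.C (y m)) (hybig m) (c (y m))
  choose e0 he0 using fun m => exists_pick (B m)
  obtain ⟨k, hk⟩ := Finite.exists_infinite_fiber fun m => c (y m) (e0 m)
  have hk' : ((fun m => c (y m) (e0 m)) ⁻¹' {k}).Infinite := Set.infinite_coe_iff.1 hk
  let M : Set ℕ := (fun m => c (y m) (e0 m)) ⁻¹' {k}
  let X' : Set ℕ := {z | (z < n ∧ z ∈ r.X) ∨ z ∈ y '' M}
  let C' : ℕ → Λ → Finset ℕ := fun z => @dite (Λ → Finset ℕ) (∃ m : ℕ, y m = z)
    (Classical.propDecidable _) (fun h => B (Classical.choose h)) (fun _ => r.C z)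
  have hC'y : ∀ m, C' (y m) = B m := by
    intro m
    have h : ∃ m', y m' = y m := ⟨m, rfl⟩
    have h1 : C' (y m) = B (Classical.choose h) := dif_pos h
    have h2 : Classical.choose h = m := hymono.injective (Classical.choose_spec h)
    rw [h1, h2]
  have hC'n : ∀ z, z ≤ n → C' z = r.C z := by
    intro z hz
    refine dif_neg ?_
    rintro ⟨m, rfl⟩
    exact absurd (hyn m) (not_lt.2 hz)
  have hC'sub : ∀ z α, C' z α ⊆ r.C z α := by
    intro z α
    rcases Classical.em (∃ m, y m = z) with h | h
    · obtain ⟨m, rfl⟩ := h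
      rw [hC'y]
      exact hB1 m α
    · have h1 : C' z = r.C z := dif_neg h
      rw [h1]
  let r' : Cond Λ :=
    { D := r.D
      s := r.s
      X := X'
      C := C'
      cD := r.cD
      sD := r.sD
      CD := fun z α hα => Finset.subset_empty.1 (by
        have := hC'sub z α
        rwa [r.CD z α hα] at this)
      inf := (hk'.image hymono.injective.injOn).mono fun z hz => Or.inr hz
      fin := fun z => (r.fin z).subset fun α hα =>
        le_trans (show 2 ≤ (C' z α).card from hα) (Finset.card_le_card (hC'sub z α))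
      big := fun α hα N => by
        obtain ⟨i0, hi0⟩ := hf3 α hα
        refine ⟨y (max i0 N), fun z hz hz1 => ?_⟩
        rcases hz with ⟨hz, _⟩ | ⟨m, _, rfl⟩
        · exact absurd (hyn (max i0 N)) (by omega)
        · rw [hC'y]
          have h1 : max i0 N ≤ m := hymono.le_iff_le.1 hz1
          rw [hB3 m α (hi0 m (by omega))]
          omega }
  refine ⟨r', ?_, rfl, k, ?_⟩
  · refine { D := Subset.rfl, s := ?_, X := ?_, C := ?_, keepX := ?_, keepC := ?_ }
    · exact fun _ _ => rfl
    · rintro z (⟨_, hz⟩ | ⟨m, _, rfl⟩)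
      · exact hz
      · exact hyX m
    · rintro z hz α _
      refine ⟨hC'sub z α, ?_⟩
      rcases hz with ⟨hz, _⟩ | ⟨m, _, rfl⟩
      · intro h
        show 2 ≤ (C' z α).card
        rw [hC'n z hz.le]
        exact h
      · intro h
        show 2 ≤ (C' (y m) α).card
        rw [hC'y]
        exact hB2 m α h
    · intro z hz hz'
      exact Or.inl ⟨hz, hz'⟩
    · intro z hz _
      exact hC'n z hz.le
  · rintro z (⟨hz, _⟩ | ⟨m, hm, rfl⟩) hzn e he
    · exact absurd hzn (not_le.2 hz)
    · have he' : Pick (B m) e := by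
        have : Pick (C' (y m)) e := he
        rwa [hC'y] at this
      rw [hB5 m e (e0 m) he' (he0 m)]
      exact hm

end Pool.Agent.N646.MC
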